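import Pool.Agent.N569.TC.Defs
import Pool.Agent.N569.TW.Cor

/-!
# The trace of a braid word through the path representation
-/

set_option autoImplicit false

namespace Pool.Agent.N569.TC

open Pool.Agent.H891R2.Jones Pool.Agent.W639.RB Pool.Agent.TH561 Pool.Agent.N569.TW Finset

section alg

variable {m : ℕ}

/-- the matrix of a letter in the path representation -/
noncomputable def MLJ (A : ℂ) (m N : ℕ) (x : Bool × ℕ) : Matrix (Fin m → Fin 2) (Fin m → Fin 2) ℂ :=
  A ^ (sgn x) • (1 : Matrix (Fin m → Fin 2) (Fin m → Fin 2) ℂ) + A ^ (-sgn x) • JJ m N x.2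

/-- the matrix of a word in the path representation -/
noncomputable def MJ (A : ℂ) (m N : ℕ) (w : List (Bool × ℕ)) :
    Matrix (Fin m → Fin 2) (Fin m → Fin 2) ℂ := (w.map (MLJ A m N)).prod

theorem MJ_append (A : ℂ) (N : ℕ) (w w' : List (Bool × ℕ)) :
    MJ A m N (w ++ w') = MJ A m N w * MJ A m N w' := by simp [MJ]

theorem MJ_terms {A : ℂ} (hA : A ≠ 0) (N : ℕ) (w : List (Bool × ℕ)) :
    MJ A m N w = ((terms w).map (fun t : ℤ × List ℕ => A ^ t.1 • WP (JJ m N) t.2)).sum := by
  induction w with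
  | nil => simp [MJ, terms]
  | cons x w ih =>
    have h2 : MJ A m N (x :: w) = MLJ A m N x * MJ A m N w := by simp [MJ]
    rw [h2, ih, terms, List.map_append, List.sum_append, List.map_map, List.map_map, MLJ, add_mul]
    congr 1
    · rw [smul_mul_assoc, one_mul, List.smul_sum, List.map_map]
      congr 1
      apply List.map_congr_left
      intro t _
      simp only [Function.comp_apply]
      rw [smul_smul, zpow_add₀ hA]
    · rw [smul_mul_assoc, ← List.sum_map_mul_left, List.smul_sum, List.map_map]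
      congr 1
      apply List.map_congr_left
      intro t _
      simp only [Function.comp_apply]
      rw [mul_smul_comm, smul_smul, zpow_add₀ hA, WP_cons]

theorem tau_add (N : ℕ) (X Y : Matrix (Fin m → Fin 2) (Fin m → Fin 2) ℂ) :
    tau m N (X + Y) = tau m N X + tau m N Y := by
  unfold tau
  rw [← Finset.sum_add_distrib]
  refine Finset.sum_congr rfl fun s _ => ?_
  rw [Matrix.add_apply]
  split_ifs
  · ring
  · ring

theorem tau_smul (N : ℕ) (c : ℂ) (X : Matrix (Fin m → Fin 2) (Fin m → Fin 2) ℂ) :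
    tau m N (c • X) = c * tau m N X := by
  unfold tau
  rw [Finset.mul_sum]
  refine Finset.sum_congr rfl fun s _ => ?_
  rw [Matrix.smul_apply, smul_eq_mul]
  split_ifs
  · ring
  · ring

theorem tau_zero (N : ℕ) : tau m N 0 = 0 := by
  unfold tau
  apply Finset.sum_eq_zero
  intro s _
  simp

/-- the trace of the words of generators -/
def TauLam (m : ℕ) : Prop := ∀ N : ℕ, 3 ≤ N → ∀ L : List ℕ, (∀ i ∈ L, i + 1 < m) →
  tau m N (WP (JJ m N) L) = (N : ℂ) ^ (lam m L)

theorem trace_MR (hT : TauLam m) {A : ℂ} (hA : A ≠ 0) {N : ℕ} (hN : 3 ≤ N) (w : List (Bool × ℕ))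
    (hw : ∀ x ∈ w, x.2 + 1 < m) : Matrix.trace (MR A m N w) = tau m N (MJ A m N w) := by
  rw [MR_terms hA, MJ_terms hA]
  have h := terms_mem w hw
  generalize terms w = l at h
  induction l with
  | nil => simp [tau_zero]
  | cons t l ih =>
    rw [List.map_cons, List.sum_cons, List.map_cons, List.sum_cons, Matrix.trace_add, tau_add,
      ih (fun u hu => h u (List.mem_cons_of_mem _ hu)), Matrix.trace_smul, tau_smul,
      trace_lam t.2 (h t List.mem_cons_self) (by omega), hT N hN t.2 (h t List.mem_cons_self),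
      smul_eq_mul]

/-! ### blocks -/

/-- the matrix preserves validity and the last height -/
def Pres (X : Matrix (Fin m → Fin 2) (Fin m → Fin 2) ℂ) : Prop :=
  ∀ t s, X t s ≠ 0 → Vd s → Vd t ∧ Hh t 0 = Hh s 0

theorem Pres.one : Pres (1 : Matrix (Fin m → Fin 2) (Fin m → Fin 2) ℂ) := by
  intro t s h hs
  rw [Matrix.one_apply] at h
  by_cases hts : t = s
  · subst hts; exact ⟨hs, rfl⟩
  · rw [if_neg hts] at h; exact absurd rfl h

theorem Pres.mul {X Y : Matrix (Fin m → Fin 2) (Fin m → Fin 2) ℂ} (hX : Pres X) (hY : Pres Y) :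
    Pres (X * Y) := by
  intro t s h hs
  rw [Matrix.mul_apply] at h
  obtain ⟨r, _, hr⟩ := Finset.exists_ne_zero_of_sum_ne_zero h
  obtain ⟨h1, h2⟩ := hY r s (right_ne_zero_of_mul hr) hs
  obtain ⟨h3, h4⟩ := hX t r (left_ne_zero_of_mul hr) h1
  exact ⟨h3, h4.trans h2⟩

theorem Pres.add {X Y : Matrix (Fin m → Fin 2) (Fin m → Fin 2) ℂ} (hX : Pres X) (hY : Pres Y) :
    Pres (X + Y) := by
  intro t s h hs
  rw [Matrix.add_apply] at h
  by_cases h1 : X t s = 0
  · rw [h1, zero_add] at h
    exact hY t s h hs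
  · exact hX t s h1 hs

theorem Pres.smul {X : Matrix (Fin m → Fin 2) (Fin m → Fin 2) ℂ} (hX : Pres X) (c : ℂ) : Pres (c • X) := by
  intro t s h hs
  rw [Matrix.smul_apply, smul_eq_mul] at h
  exact hX t s (right_ne_zero_of_mul h) hs

theorem Pres.JJ (N i : ℕ) : Pres (JJ m N i) := by
  classical
  intro t s h _
  unfold TC.JJ at h
  rw [Matrix.of_apply] at h
  by_cases hc : i + 1 < m ∧ Vd t ∧ Vd s ∧ Hh s i = Hh s (i+2) ∧ (t = s ∨ t = fl i s)
  · obtain ⟨_, h2, _, _, h5⟩ := hc
    refine ⟨h2, ?_⟩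
    rcases h5 with h5 | h5
    · rw [h5]
    · rw [h5]
      exact Hh_fl_ne s (by omega)
  · rw [if_neg hc] at h
    exact absurd rfl h

theorem Pres.MLJ (A : ℂ) (N : ℕ) (x : Bool × ℕ) : Pres (MLJ A m N x) :=
  (Pres.one.smul _).add ((Pres.JJ N x.2).smul _)

theorem Pres.MJ (A : ℂ) (N : ℕ) (w : List (Bool × ℕ)) : Pres (MJ A m N w) := by
  induction w with
  | nil => simpa [TC.MJ] using Pres.one
  | cons x w ih =>
    have h2 : TC.MJ A m N (x :: w) = TC.MLJ A m N x * TC.MJ A m N w := by simp [TC.MJ]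
    rw [h2]
    exact (Pres.MLJ A N x).mul ih

/-- the block of the paths which end at the height `j` -/
def sub (j : ℤ) (X : Matrix (Fin m → Fin 2) (Fin m → Fin 2) ℂ) : Matrix (VV m j) (VV m j) ℂ :=
  Matrix.of fun t s => X t.1 s.1

theorem sub_one (j : ℤ) : sub j (1 : Matrix (Fin m → Fin 2) (Fin m → Fin 2) ℂ) = 1 := by
  ext t s
  unfold sub
  rw [Matrix.of_apply, Matrix.one_apply, Matrix.one_apply]
  simp only [Subtype.ext_iff]

theorem sub_mul (j : ℤ) {X Y : Matrix (Fin m → Fin 2) (Fin m → Fin 2) ℂ} (hY : Pres Y) :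
    sub j (X * Y) = sub j X * sub j Y := by
  classical
  ext t s
  unfold sub
  rw [Matrix.of_apply, Matrix.mul_apply, Matrix.mul_apply]
  simp only [Matrix.of_apply]
  have h1 : ∀ r : Fin m → Fin 2, r ∉ (univ : Finset (VV m j)).image Subtype.val → X t.1 r * Y r s.1 = 0 := by
    intro r hr
    by_contra hne
    obtain ⟨h2, h3⟩ := hY r s.1 (right_ne_zero_of_mul hne) s.2.1
    exact hr (Finset.mem_image.2 ⟨⟨r, h2, h3.trans s.2.2⟩, Finset.mem_univ _, rfl⟩)
  rw [← Finset.sum_subset (Finset.subset_univ ((univ : Finset (VV m j)).image Subtype.val))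
    (fun r _ hr => h1 r hr), Finset.sum_image (fun a _ b _ h => Subtype.ext h)]

theorem tau_sub (N : ℕ) (X : Matrix (Fin m → Fin 2) (Fin m → Fin 2) ℂ) :
    tau m N X = ∑ j ∈ range (m+1), De N j * Matrix.trace (sub (j : ℤ) X) := by
  classical
  unfold tau
  have h1 : ∀ s : Fin m → Fin 2, (if Vd s then De N (Hh s 0) * X s s else 0) =
      ∑ j ∈ range (m+1), if Vd s ∧ Hh s 0 = (j : ℤ) then De N (j : ℤ) * X s s else 0 := by
    intro s
    by_cases hs : Vd s
    · rw [if_pos hs, Finset.sum_eq_single (Hh s 0).toNat]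
      · have h2 : ((Hh s 0).toNat : ℤ) = Hh s 0 := Int.toNat_of_nonneg (hs 0)
        rw [h2, if_pos ⟨hs, rfl⟩]
      · intro j _ hj
        rw [if_neg]
        rintro ⟨_, h3⟩
        apply hj
        rw [h3]
        simp
      · intro hj
        exfalso
        apply hj
        rw [Finset.mem_range]
        have := Hh_le s (Nat.zero_le m)
        push_cast at this
        omega
    · rw [if_neg hs]
      symm
      apply Finset.sum_eq_zero
      intro j _
      rw [if_neg (fun h => hs h.1)]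
  rw [Finset.sum_congr rfl (fun s _ => h1 s), Finset.sum_comm]
  refine Finset.sum_congr rfl fun j _ => ?_
  unfold Matrix.trace
  rw [Finset.mul_sum, ← Finset.sum_filter]
  have h2 : (univ.filter (fun s : Fin m → Fin 2 => Vd s ∧ Hh s 0 = (j : ℤ))) =
      (univ : Finset (VV m (j : ℤ))).image Subtype.val := by
    ext s
    simp only [Finset.mem_filter, Finset.mem_univ, true_and, Finset.mem_image]
    constructor
    · intro h; exact ⟨⟨s, h⟩, rfl⟩
    · rintro ⟨u, rfl⟩; exact u.2
  rw [h2, Finset.sum_image (fun a _ b _ h => Subtype.ext h)]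
  rfl

/-! ### full twists -/

theorem MLJ_true (A : ℂ) (N i : ℕ) : MLJ A m N (true, i) = sg A (JJ m N) i := by
  unfold MLJ sg sgn
  simp

theorem MLJ_false (A : ℂ) (N i : ℕ) : MLJ A m N (false, i) = sg A⁻¹ (JJ m N) i := by
  unfold MLJ sg sgn
  simp

theorem MJ_TW (A : ℂ) (N n k a : ℕ) : MJ A m N (TW true n k a) = (FF (sg A (JJ m N)) n k) ^ a := by
  have h : ∀ w : List (Bool × ℕ), MJ A m N (List.replicate a w).flatten = (MJ A m N w) ^ a := by
    intro w
    induction a with
    | zero => simp [MJ]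
    | succ n ih => rw [List.replicate_succ, List.flatten_cons, MJ_append, ih, pow_succ']
  unfold TW
  rw [h]
  congr 1
  unfold MJ
  rw [List.map_map, ← twistWord_prod]
  congr 1
  apply List.map_congr_left
  intro i _
  exact MLJ_true A N i

/-- the full twist is diagonal -/
def FFd (m : ℕ) : Prop := ∀ (N : ℕ), 3 ≤ N → ∀ (A : ℂ), A ≠ 0 → (N : ℂ) = -A^2 - A⁻¹^2 → ∀ n : ℕ,
    n ≤ m → ∀ t s : Fin m → Fin 2, Vd s → FF (sg A (JJ m N)) n (m - n) t s =
      if t = s then A ^ ((Hh s (m - n)) ^ 2 + 2 * Hh s (m - n) - 3 * (n : ℤ)) else 0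

theorem TW_apply (hF : FFd m) {N : ℕ} (hN : 3 ≤ N) {A : ℂ} (hA : A ≠ 0)
    (hd : (N : ℂ) = -A^2 - A⁻¹^2) {n : ℕ} (hn : n ≤ m) (a : ℕ) (t s : Fin m → Fin 2) (hs : Vd s) :
    MJ A m N (TW true n (m - n) a) t s =
      if t = s then A ^ ((a : ℤ) * ((Hh s (m - n)) ^ 2 + 2 * Hh s (m - n) - 3 * (n : ℤ))) else 0 := by
  rw [MJ_TW]
  induction a generalizing t with
  | zero =>
    rw [pow_zero, Matrix.one_apply]
    split_ifs <;> simp
  | succ a ih =>
    rw [pow_succ', Matrix.mul_apply, Finset.sum_eq_single s]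
    · rw [hF N hN A hA hd n hn t s hs, ih s, if_pos rfl]
      split_ifs with h
      · rw [← zpow_add₀ hA]
        congr 1
        push_cast
        ring
      · rw [zero_mul]
    · intro r _ hr
      rw [ih r, if_neg hr, mul_zero]
    · intro h
      exact absurd (Finset.mem_univ _) h

/-- the word of a list of items -/
def wd (m : ℕ) (L : List It) : List (Bool × ℕ) := (L.map (It.word m)).flatten

theorem wd_cons (x : It) (L : List It) : wd m (x :: L) = x.word m ++ wd m L := by simp [wd]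

theorem It.word_mem (x : It) (hx : x.Fits m) : ∀ y ∈ x.word m, y.2 + 1 < m := by
  cases x with
  | letter b i =>
    intro y hy
    simp only [It.word, List.mem_singleton] at hy
    rw [hy]
    exact hx
  | twist n a =>
    have : n ≤ m := hx.1
    exact TW_mem true n (m - n) a (by omega)

theorem wd_mem (L : List It) (hL : ∀ x ∈ L, x.Fits m) : ∀ y ∈ wd m L, y.2 + 1 < m := by
  intro y hy
  unfold wd at hy
  rw [List.mem_flatten] at hy
  obtain ⟨l, hl, hy⟩ := hy
  rw [List.mem_map] at hl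
  obtain ⟨x, hx, rfl⟩ := hl
  exact x.word_mem (hL x hx) y hy

/-- the trace of a word followed by full twists of all strands -/
theorem trace_formula (hT : TauLam m) (hF : FFd m) {N : ℕ} (hN : 3 ≤ N) {A : ℂ} (hA : A ≠ 0)
    (hd : (N : ℂ) = -A^2 - A⁻¹^2) (L : List It) (hL : ∀ x ∈ L, x.Fits m) (K : ℕ) :
    Matrix.trace (MR A m N (wd m L ++ TW true m 0 K)) = ∑ j ∈ range (m+1),
      De N j * (A ^ ((K : ℤ) * ((j : ℤ)^2 + 2 * j - 3 * m)) * Matrix.trace (sub (j : ℤ) (MJ A m N (wd m L)))) := by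
  rw [trace_MR hT hA hN _ (by
    intro y hy
    rcases List.mem_append.1 hy with hy | hy
    · exact wd_mem L hL y hy
    · exact TW_mem true m 0 K (by omega) y hy), tau_sub]
  refine Finset.sum_congr rfl fun j _ => ?_
  congr 1
  rw [MJ_append]
  unfold Matrix.trace
  rw [Finset.mul_sum]
  refine Finset.sum_congr rfl fun s _ => ?_
  rw [Matrix.diag_apply, Matrix.diag_apply]
  unfold sub
  rw [Matrix.of_apply, Matrix.of_apply, Matrix.mul_apply, Finset.sum_eq_single s.1]
  · have h := TW_apply hF hN hA hd (le_refl m) K s.1 s.1 s.2.1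
    rw [Nat.sub_self] at h
    rw [h, if_pos rfl, s.2.2]
    ring
  · intro r _ hr
    have h := TW_apply hF hN hA hd (le_refl m) K r s.1 s.2.1
    rw [Nat.sub_self] at h
    rw [h, if_neg hr, mul_zero]
  · intro h
    exact absurd (Finset.mem_univ _) h

end alg

end Pool.Agent.N569.TC
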