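import Pool.Agent.N569.TC.Alg

/-!
# First-order expansions for large loop value
-/

set_option autoImplicit false

namespace Pool.Agent.N569.TC

open Pool.Agent.H891R2.Jones Pool.Agent.W639.RB Pool.Agent.TH561 Pool.Agent.N569.TW Finset Filter Topology

section ap

/-- `f N = a + b / N ^ 2 + o(1 / N ^ 2)` -/
def Ap (f : ℕ → ℂ) (a b : ℂ) : Prop := Tendsto (fun N : ℕ => (N : ℂ)^2 * (f N - a)) atTop (𝓝 b)

theorem tendsto_inv_sq : Tendsto (fun N : ℕ => ((N : ℂ)^2)⁻¹) atTop (𝓝 0) := by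
  have h : Tendsto (fun N : ℕ => ((N : ℂ))⁻¹) atTop (𝓝 0) := by
    rw [tendsto_zero_iff_norm_tendsto_zero]
    simp only [norm_inv, Complex.norm_natCast]
    exact tendsto_inv_atTop_nhds_zero_nat (𝕜 := ℝ)
  have h2 := h.mul h
  rw [mul_zero] at h2
  refine h2.congr fun N => ?_
  rw [pow_two, mul_inv]

theorem Ap.congr {f g : ℕ → ℂ} {a b : ℂ} (h : Ap f a b) (hfg : ∀ N, 3 ≤ N → f N = g N) : Ap g a b := by
  unfold Ap at h ⊢
  refine h.congr' ?_
  filter_upwards [eventually_ge_atTop 3] with N hN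
  rw [hfg N hN]

theorem Ap.tendsto {f : ℕ → ℂ} {a b : ℂ} (h : Ap f a b) : Tendsto f atTop (𝓝 a) := by
  have h1 := tendsto_inv_sq.mul h
  rw [zero_mul] at h1
  have h2 : Tendsto (fun N => f N - a) atTop (𝓝 0) := by
    refine h1.congr' ?_
    filter_upwards [eventually_ge_atTop 3] with N hN
    have hN0 : ((N : ℂ))^2 ≠ 0 := pow_ne_zero 2 (Nat.cast_ne_zero.2 (by omega))
    rw [← mul_assoc, inv_mul_cancel₀ hN0, one_mul]
  have h3 := h2.add_const a
  simpa using h3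

theorem Ap.const (c : ℂ) : Ap (fun _ => c) c 0 := by
  unfold Ap
  simp

theorem Ap.add {f g : ℕ → ℂ} {a b a' b' : ℂ} (h : Ap f a b) (h' : Ap g a' b') :
    Ap (fun N => f N + g N) (a + a') (b + b') := by
  unfold Ap at *
  refine (h.add h').congr fun N => ?_
  ring

theorem Ap.neg {f : ℕ → ℂ} {a b : ℂ} (h : Ap f a b) : Ap (fun N => -f N) (-a) (-b) := by
  unfold Ap at *
  refine (Tendsto.neg h).congr fun N => ?_
  ring

theorem Ap.mul {f g : ℕ → ℂ} {a b a' b' : ℂ} (h : Ap f a b) (h' : Ap g a' b') :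
    Ap (fun N => f N * g N) (a * a') (b * a' + a * b') := by
  have h1 := h'.tendsto
  unfold Ap at *
  refine ((Tendsto.mul h h1).add (h'.const_mul a)).congr fun N => ?_
  ring

theorem Ap.sum {ι : Type*} (S : Finset ι) {f : ι → ℕ → ℂ} {a b : ι → ℂ} (h : ∀ i ∈ S, Ap (f i) (a i) (b i)) :
    Ap (fun N => ∑ i ∈ S, f i N) (∑ i ∈ S, a i) (∑ i ∈ S, b i) := by
  unfold Ap at *
  refine (tendsto_finsetSum S h).congr fun N => ?_
  rw [← Finset.mul_sum, Finset.sum_sub_distrib]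

theorem Ap.cast {f : ℕ → ℂ} {a b a' b' : ℂ} (h : Ap f a b) (ha : a = a') (hb : b = b') : Ap f a' b' := by
  rw [← ha, ← hb]; exact h

end ap

section values

/-- the small square root -/
noncomputable def Bb (N : ℕ) : ℂ := (Ar N)⁻¹

theorem Bb_ne {N : ℕ} (hN : 3 ≤ N) : Bb N ≠ 0 := inv_ne_zero (Ar_ne N hN)

theorem Bb_d {N : ℕ} (hN : 3 ≤ N) : (N : ℂ) = -(Bb N)^2 - (Bb N)⁻¹^2 := by
  unfold Bb
  rw [inv_inv]
  have := Ar_d N hN
  rw [this]
  ring

theorem Bb_mul {N : ℕ} (hN : 3 ≤ N) : -(Bb N)^2 * N = 1 + (Bb N)^4 := by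
  have h := Bb_d hN
  have h0 := Bb_ne hN
  rw [h]
  field_simp
  ring

/-- the small parameter -/
noncomputable def yy (N : ℕ) : ℂ := (Bb N)^4

theorem yy_eq {N : ℕ} (hN : 3 ≤ N) : (N : ℂ)^2 * yy N = (1 + yy N)^2 := by
  unfold yy
  rw [← Bb_mul hN]
  ring

theorem yy_real {N : ℕ} (hN : 3 ≤ N) : yy N = (((xr N)^2)⁻¹ : ℝ) := by
  unfold yy Bb
  have h := Ar_sq N hN
  have h2 : (Ar N)⁻¹ ^ 4 = ((Ar N ^ 2) ^ 2)⁻¹ := by
    rw [inv_pow, ← pow_mul]
  rw [h2, h]
  push_cast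
  ring

theorem yy_tendsto : Tendsto yy atTop (𝓝 0) := by
  rw [tendsto_zero_iff_norm_tendsto_zero]
  have h1 : Tendsto (fun N : ℕ => 4 * ((N : ℝ)⁻¹ * (N : ℝ)⁻¹)) atTop (𝓝 0) := by
    have h := tendsto_inv_atTop_nhds_zero_nat (𝕜 := ℝ)
    have h2 := (h.mul h).const_mul 4
    simpa using h2
  refine squeeze_zero' (Eventually.of_forall fun N => norm_nonneg _) ?_ h1
  filter_upwards [eventually_ge_atTop 3] with N hN
  rw [yy_real hN, Complex.norm_real, norm_inv, norm_pow, Real.norm_eq_abs]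
  have hx : (N : ℝ) / 2 ≤ xr N := by
    unfold xr
    have := Real.sqrt_nonneg ((N : ℝ)^2 - 4)
    linarith
  have hN' : (3 : ℝ) ≤ N := by exact_mod_cast hN
  have hpos : 0 < xr N := by linarith
  rw [abs_of_pos hpos]
  have h3 : ((N : ℝ) / 2)^2 ≤ (xr N)^2 := pow_le_pow_left₀ (by linarith) hx 2
  have h4 : ((xr N)^2)⁻¹ ≤ (((N : ℝ) / 2)^2)⁻¹ := inv_anti₀ (by positivity) h3
  refine h4.trans (le_of_eq ?_)
  field_simp
  norm_num

theorem ap_yy : Ap yy 0 1 := by
  unfold Ap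
  have h : Tendsto (fun N => (1 + yy N)^2) atTop (𝓝 1) := by
    have := (yy_tendsto.const_add 1).pow 2
    simpa using this
  refine h.congr' ?_
  filter_upwards [eventually_ge_atTop 3] with N hN
  rw [← yy_eq hN, sub_zero]

/-- quotients of Chebyshev values: the small one -/
noncomputable def vv (h : ℤ) (N : ℕ) : ℂ := De N (h - 1) / (N * De N h)

/-- quotients of Chebyshev values: the large one -/
noncomputable def uu (h : ℤ) (N : ℕ) : ℂ := De N (h + 1) / (N * De N h)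

theorem uu_eq {N : ℕ} (hN : 3 ≤ N) {h : ℤ} (hh : 0 ≤ h) : uu h N = 1 - vv h N := by
  unfold uu vv
  have h1 := De_rec N hh
  have h2 := De_ne hN hh
  have hN0 : (N : ℂ) ≠ 0 := Nat.cast_ne_zero.2 (by omega)
  have h3 : De N (h + 1) = N * De N h - De N (h - 1) := by rw [← h1]; ring
  rw [h3]
  field_simp

theorem ap_vv : ∀ h : ℕ, Ap (vv h) 0 (if h = 0 then 0 else 1)
  | 0 => by
    have h1 : vv ((0 : ℕ) : ℤ) = fun _ => 0 := by
      funext N
      unfold vv
      rw [De_neg N (by norm_num), zero_div]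
    rw [h1]
    simpa using Ap.const 0
  | (h+1) => by
    have ih := (ap_vv h).tendsto
    rw [if_neg (Nat.succ_ne_zero h)]
    unfold Ap
    have h1 : Tendsto (fun N => (1 - vv h N)⁻¹) atTop (𝓝 1) := by
      have := (ih.const_sub 1).inv₀ (by norm_num)
      simpa using this
    refine h1.congr' ?_
    filter_upwards [eventually_ge_atTop 3] with N hN
    rw [← uu_eq hN (Int.natCast_nonneg h), sub_zero]
    unfold uu vv
    have h2 := De_ne hN (Int.natCast_nonneg h)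
    have h3 : De N ((h : ℤ) + 1) ≠ 0 := De_ne hN (by positivity)
    have hN0 : (N : ℂ) ≠ 0 := Nat.cast_ne_zero.2 (by omega)
    have e1 : (((h + 1 : ℕ) : ℤ)) = (h : ℤ) + 1 := by push_cast; ring
    have e2 : (((h + 1 : ℕ) : ℤ)) - 1 = (h : ℤ) := by push_cast; ring
    rw [e2, e1]
    field_simp

theorem ap_vv' {h : ℤ} (hh : 0 ≤ h) : Ap (vv h) 0 (if h = 0 then 0 else 1) := by
  obtain ⟨n, rfl⟩ := Int.eq_ofNat_of_zero_le hh
  have := ap_vv n
  refine this.cast rfl ?_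
  simp only [Nat.cast_eq_zero]

theorem ap_uu' {h : ℤ} (hh : 0 ≤ h) : Ap (uu h) 1 (if h = 0 then 0 else -1) := by
  have h1 := (Ap.const 1).add (ap_vv' hh).neg
  refine (h1.cast (by ring) ?_).congr fun N hN => ?_
  · split_ifs <;> ring
  · rw [uu_eq hN hh]
    ring

/-- the leading behaviour of the Chebyshev values -/
theorem De_tendsto : ∀ h : ℕ, Tendsto (fun N : ℕ => De N h / (N : ℂ)^h) atTop (𝓝 1)
  | 0 => by
    have : ∀ N : ℕ, De N ((0:ℕ):ℤ) / (N : ℂ)^0 = 1 := by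
      intro N
      have : De N ((0 : ℕ) : ℤ) = 1 := De_zero N
      rw [this]
      simp
    simp only [this]
    exact tendsto_const_nhds
  | (h+1) => by
    have h1 := (De_tendsto h).mul (ap_uu' (Int.natCast_nonneg h)).tendsto
    rw [one_mul] at h1
    refine h1.congr' ?_
    filter_upwards [eventually_ge_atTop 3] with N hN
    unfold uu
    have h2 := De_ne hN (Int.natCast_nonneg h)
    have hN0 : (N : ℂ) ≠ 0 := Nat.cast_ne_zero.2 (by omega)
    have e1 : (((h + 1 : ℕ) : ℤ)) = (h : ℤ) + 1 := by push_cast; ring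
    rw [e1, pow_succ]
    field_simp

end values

section items

variable {m : ℕ} {j : ℤ}

/-- the unit of an item -/
noncomputable def un (B : ℂ) : It → ℂ
  | It.letter true _ => -B^(-3 : ℤ)
  | It.letter false _ => B^(-1 : ℤ)
  | It.twist n a => B^((a : ℤ) * (((n : ℤ) % 2)^2 + 2 * ((n : ℤ) % 2) - 3 * n))

theorem un_ne {B : ℂ} (hB : B ≠ 0) (x : It) : un B x ≠ 0 := by
  rcases x with ⟨b, i⟩ | ⟨n, a⟩
  · cases b
    · exact zpow_ne_zero _ hB
    · exact neg_ne_zero.2 (zpow_ne_zero _ hB)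
  · exact zpow_ne_zero _ hB

/-- the normalised matrix of an item -/
noncomputable def NM (m : ℕ) (j : ℤ) (N : ℕ) (x : It) : Matrix (VV m j) (VV m j) ℂ :=
  (un (Bb N) x)⁻¹ • sub j (MJ (Bb N) m N (x.word m))

theorem sub_wd (N : ℕ) (hN : 3 ≤ N) (L : List It) : sub j (MJ (Bb N) m N (wd m L)) =
    (L.map (un (Bb N))).prod • (L.map (NM m j N)).prod := by
  induction L with
  | nil =>
    simp only [wd, List.map_nil, List.flatten_nil, List.prod_nil, one_smul]
    have : MJ (Bb N) m N [] = 1 := by simp [MJ]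
    rw [this, sub_one]
  | cons x L ih =>
    rw [wd_cons, MJ_append, sub_mul _ (Pres.MJ _ _ _), ih, List.map_cons, List.prod_cons, List.map_cons,
      List.prod_cons]
    have h1 : sub j (MJ (Bb N) m N (x.word m)) = un (Bb N) x • NM m j N x := by
      unfold NM
      rw [smul_smul, mul_inv_cancel₀ (un_ne (Bb_ne hN) x), one_smul]
    rw [h1, smul_mul_smul_comm]

/-- expansions of matrices -/
def ApM (X : ℕ → Matrix (VV m j) (VV m j) ℂ) (P Q : Matrix (VV m j) (VV m j) ℤ) : Prop :=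
  ∀ t s, Ap (fun N => X N t s) ((P t s : ℤ) : ℂ) ((Q t s : ℤ) : ℂ)

theorem ApM.one : ApM (fun _ => (1 : Matrix (VV m j) (VV m j) ℂ)) 1 0 := by
  intro t s
  have h := Ap.const ((1 : Matrix (VV m j) (VV m j) ℂ) t s)
  refine h.cast ?_ (by simp)
  rw [Matrix.one_apply, Matrix.one_apply]
  split_ifs <;> simp

theorem ApM.mul {X Y : ℕ → Matrix (VV m j) (VV m j) ℂ} {P Q P' Q' : Matrix (VV m j) (VV m j) ℤ}
    (h : ApM X P Q) (h' : ApM Y P' Q') :
    ApM (fun N => X N * Y N) (P * P') (Q * P' + P * Q') := by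
  intro t s
  have h1 := Ap.sum (univ : Finset (VV m j)) (fun r _ => (h t r).mul (h' r s))
  refine (h1.cast ?_ ?_).congr fun N _ => ?_
  · rw [Matrix.mul_apply]
    push_cast
    rfl
  · rw [Matrix.add_apply, Matrix.mul_apply, Matrix.mul_apply, ← Finset.sum_add_distrib]
    push_cast
    rfl
  · simp only [Matrix.mul_apply]

theorem ApM.trace {X : ℕ → Matrix (VV m j) (VV m j) ℂ} {P Q : Matrix (VV m j) (VV m j) ℤ}
    (h : ApM X P Q) : Ap (fun N => Matrix.trace (X N)) ((Matrix.trace P : ℤ) : ℂ) ((Matrix.trace Q : ℤ) : ℂ) := by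
  have h1 := Ap.sum (univ : Finset (VV m j)) (fun r _ => h r r)
  refine (h1.cast ?_ ?_).congr fun N _ => ?_
  · unfold Matrix.trace
    push_cast
    rfl
  · unfold Matrix.trace
    push_cast
    rfl
  · rfl

/-- expansions of the entries of a generator -/
theorem ap_J {i : ℕ} (hi : i + 1 < m) (t s : VV m j) (hm : Hh s.1 i = Hh s.1 (i+2))
    (ht : t = s ∨ t.1 = fl i s.1) :
    (Pk i t.1 → Ap (fun N => JJ m N i t.1 s.1 / N) 1 (if Hh s.1 (i+2) = 0 then 0 else -1)) ∧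
    (¬ Pk i t.1 → Ap (fun N => JJ m N i t.1 s.1 / N) 0 1) := by
  classical
  have ht' : t.1 = s.1 ∨ t.1 = fl i s.1 := by
    rcases ht with rfl | ht
    · exact Or.inl rfl
    · exact Or.inr ht
  have hJ : ∀ N, JJ m N i t.1 s.1 = De N (Hh t.1 (i+1)) / De N (Hh s.1 (i+2)) := by
    intro N
    unfold JJ
    rw [Matrix.of_apply, if_pos ⟨hi, t.2.1, s.2.1, hm, ht'⟩]
  have h0 : 0 ≤ Hh s.1 (i+2) := s.2.1 _
  have h1 : Hh t.1 i = Hh s.1 (i+2) ∧ Hh t.1 (i+2) = Hh s.1 (i+2) := by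
    rcases ht' with h | h
    · rw [h]; exact ⟨hm, rfl⟩
    · rw [h, Hh_fl_ne s.1 (by omega), Hh_fl_ne s.1 (by omega)]; exact ⟨hm, rfl⟩
  have h2 := Hh_step t.1 (Nat.lt_of_succ_lt hi)
  constructor
  · intro hp
    have h3 : Hh t.1 (i+1) = Hh s.1 (i+2) + 1 := by
      have := hp.1
      omega
    refine (ap_uu' h0).congr fun N _ => ?_
    rw [hJ, h3]
    unfold uu
    rw [div_div, mul_comm]
  · intro hp
    have h3 : Hh t.1 (i+1) = Hh s.1 (i+2) - 1 := by
      unfold Pk at hp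
      omega
    have h4 : Hh s.1 (i+2) ≠ 0 := by
      have := t.2.1 (i+1)
      omega
    have h5 := ap_vv' h0
    rw [if_neg h4] at h5
    refine h5.congr fun N _ => ?_
    rw [hJ, h3]
    unfold vv
    rw [div_div, mul_comm]

theorem ap_J0 {i : ℕ} (t s : VV m j) (h : ¬ (Hh s.1 i = Hh s.1 (i+2) ∧ (t = s ∨ t.1 = fl i s.1))) :
    Ap (fun N => JJ m N i t.1 s.1 / N) 0 0 := by
  classical
  refine (Ap.const 0).congr fun N _ => ?_
  unfold JJ
  rw [Matrix.of_apply, if_neg, zero_div]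
  rintro ⟨_, _, _, h1, h2⟩
  apply h
  refine ⟨h1, ?_⟩
  rcases h2 with h2 | h2
  · exact Or.inl (Subtype.ext h2)
  · exact Or.inr h2

theorem NM_true (i : ℕ) (t s : VV m j) (N : ℕ) (hN : 3 ≤ N) : NM m j N (It.letter true i) t s =
    -(yy N * (if t = s then 1 else 0)) + (1 + yy N) * (JJ m N i t.1 s.1 / N) := by
  have hB := Bb_ne hN
  have hN0 : (N : ℂ) ≠ 0 := Nat.cast_ne_zero.2 (by omega)
  have h1 : MJ (Bb N) m N ((It.letter true i).word m) = Bb N • 1 + (Bb N)⁻¹ • JJ m N i := by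
    simp only [It.word]
    have : MJ (Bb N) m N [(true, i)] = MLJ (Bb N) m N (true, i) := by simp [MJ]
    rw [this, MLJ_true]
    rfl
  unfold NM
  rw [h1]
  have h2 : sub j (Bb N • (1 : Matrix (Fin m → Fin 2) (Fin m → Fin 2) ℂ) + (Bb N)⁻¹ • JJ m N i) t s =
      Bb N * (if t = s then 1 else 0) + (Bb N)⁻¹ * JJ m N i t.1 s.1 := by
    unfold sub
    rw [Matrix.of_apply, Matrix.add_apply, Matrix.smul_apply, Matrix.smul_apply, Matrix.one_apply,
      smul_eq_mul, smul_eq_mul]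
    simp only [Subtype.ext_iff]
  rw [Matrix.smul_apply, h2, smul_eq_mul]
  have h3 : (un (Bb N) (It.letter true i))⁻¹ = -(Bb N)^3 := by
    simp only [un]
    rw [inv_neg, ← zpow_neg]
    norm_num
  rw [h3]
  have h4 : (1 + yy N) * (JJ m N i t.1 s.1 / N) = -(Bb N)^2 * JJ m N i t.1 s.1 := by
    have : 1 + yy N = -(Bb N)^2 * N := by rw [Bb_mul hN]; rfl
    rw [this]
    field_simp
  rw [h4]
  unfold yy
  field_simp
  ring

theorem NM_false (i : ℕ) (t s : VV m j) (N : ℕ) (hN : 3 ≤ N) : NM m j N (It.letter false i) t s =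
    (if t = s then 1 else 0) + -((1 + yy N) * (JJ m N i t.1 s.1 / N)) := by
  have hB := Bb_ne hN
  have hN0 : (N : ℂ) ≠ 0 := Nat.cast_ne_zero.2 (by omega)
  have h1 : MJ (Bb N) m N ((It.letter false i).word m) = (Bb N)⁻¹ • 1 + Bb N • JJ m N i := by
    simp only [It.word]
    have : MJ (Bb N) m N [(false, i)] = MLJ (Bb N) m N (false, i) := by simp [MJ]
    rw [this, MLJ_false]
    unfold sg
    rw [inv_inv]
  unfold NM
  rw [h1]
  have h2 : sub j ((Bb N)⁻¹ • (1 : Matrix (Fin m → Fin 2) (Fin m → Fin 2) ℂ) + Bb N • JJ m N i) t s =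
      (Bb N)⁻¹ * (if t = s then 1 else 0) + Bb N * JJ m N i t.1 s.1 := by
    unfold sub
    rw [Matrix.of_apply, Matrix.add_apply, Matrix.smul_apply, Matrix.smul_apply, Matrix.one_apply,
      smul_eq_mul, smul_eq_mul]
    simp only [Subtype.ext_iff]
  rw [Matrix.smul_apply, h2, smul_eq_mul]
  have h3 : (un (Bb N) (It.letter false i))⁻¹ = Bb N := by
    simp only [un]
    rw [← zpow_neg]
    norm_num
  rw [h3]
  have h4 : (1 + yy N) * (JJ m N i t.1 s.1 / N) = -(Bb N)^2 * JJ m N i t.1 s.1 := by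
    have : 1 + yy N = -(Bb N)^2 * N := by rw [Bb_mul hN]; rfl
    rw [this]
    field_simp
  rw [h4]
  field_simp

end items

end Pool.Agent.N569.TC
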