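import Pool.Agent.N569.TC.Fin
import Pool.Agent.N130.TC.SU

/-!
# The theorems on twisted braids
-/

set_option autoImplicit false

namespace Pool.Agent.N569.TC

open Pool.Agent.H891R2.Jones Pool.Agent.W639.RB Pool.Agent.TH561 Pool.Agent.N569.TW Finset Filter Topology
  LaurentPolynomial

section br

variable {m : ℕ}

theorem p1Trace : P1Trace := fun _ c hc hm L hA hF => Pool.Agent.N130.TC.P1_trace c hc hm L hA hF

theorem expo_sgd (s : Bool) (W : List (Bool × ℕ)) : expo (sgd s W) = eps s * expo W := by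
  cases s
  · simp [sgd, eps, expo_flip]
  · simp [sgd, eps]

theorem full_main (hm : 0 < m) (L : List It) (hL : ∀ x ∈ L, x.Fits m) (K : ℕ) (hK : 1 ≤ K) (s : Bool) :
    (draw (braidClosure m) (sgd s (wd m L ++ TW true m 0 K))).close.IsClosed ∧
    (draw (braidClosure m) (sgd s (wd m L ++ TW true m 0 K))).close.writhe =
      expo (sgd s (wd m L ++ TW true m 0 K)) ∧
    ∃ ε : ℤ, (ε = 1 ∨ ε = -1) ∧
      (draw (braidClosure m) (sgd s (wd m L ++ TW true m 0 K))).close.fPoly.coeff (-eps s * FE m L K) =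
        ε * pths m L ∧
      (∀ n, FE m L K < n →
        (draw (braidClosure m) (sgd s (wd m L ++ TW true m 0 K))).close.fPoly.coeff (-eps s * n) = 0) ∧
      (2 ≤ pths m L → ∀ c : ℕ,
        (draw (braidClosure m) (sgd s (wd m L ++ TW true m 0 K))).close.fPoly ≠ (-T 2 - T (-2)) ^ c) ∧
      (3 ≤ m → ∀ c < 2, Alt m c L → Full m L → pths m L = 1 ∧
        (∃ σ : ℤ, 1 ≤ σ ∧ (draw (braidClosure m) (sgd s (wd m L ++ TW true m 0 K))).close.fPoly.coeff
          (-eps s * (FE m L K - 4)) = -ε * σ) ∧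
        (∀ n, FE m L K - 4 < n → n ≠ FE m L K →
          (draw (braidClosure m) (sgd s (wd m L ++ TW true m 0 K))).close.fPoly.coeff (-eps s * n) = 0) ∧
        (draw (braidClosure m) (sgd s (wd m L ++ TW true m 0 K))).close.fPoly ≠ 1 ∧
        ∀ c : ℕ, (draw (braidClosure m) (sgd s (wd m L ++ TW true m 0 K))).close.fPoly ≠
          (-T 2 - T (-2)) ^ c) := by
  obtain ⟨h1, h2, ε, hε, h3, h4, h5⟩ := main1 hm L hL K hK s
  refine ⟨h1, by rw [h2, expo_sgd], ε, hε, h3, fun n hn => h5 n (by linarith) (ne_of_gt hn), ?_, ?_⟩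
  · intro h6 c
    exact not_unlink _ s (FE m L K) ε (pths m L) (sec m K L) hε h3 h4 h5 (Or.inl (by exact_mod_cast h6)) c
  · intro hm3 c hc hA hF
    have ha : ∀ n a, It.twist n a ∈ L → 1 ≤ a := fun n a h => (hL _ h).2
    obtain ⟨h6, h7⟩ := alt_main p1Trace c hc hm3 L hA hF ha K
    have h8 : ∀ c : ℕ, (draw (braidClosure m) (sgd s (wd m L ++ TW true m 0 K))).close.fPoly ≠
        (-T 2 - T (-2)) ^ c := by
      intro c
      exact not_unlink _ s (FE m L K) ε (pths m L) (sec m K L) hε h3 h4 h5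
        (Or.inr ⟨by exact_mod_cast h6, h7⟩) c
    refine ⟨h6, ⟨-sec m K L, by linarith, ?_⟩, h5, ?_, h8⟩
    · rw [h4]; ring
    · intro h
      apply h8 0
      rw [h, pow_zero]

/-- the items of a braid word -/
def items {l : ℕ} (s : Bool) (β : Fin l → Letter m) : List It :=
  List.ofFn (fun i => It.letter (if s then (β i).1 else !(β i).1) ((β i).2 : ℕ))

theorem wd_items {l : ℕ} (s : Bool) (β : Fin l → Letter m) :
    sgd s (wd m (items s β)) = toL β := by
  have h : wd m (items s β) = List.ofFn (fun i => ((if s then (β i).1 else !(β i).1), ((β i).2 : ℕ))) := by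
    unfold wd items
    rw [List.map_ofFn]
    have : ∀ (n : ℕ) (f : Fin n → Bool × ℕ), (List.ofFn (fun i => [f i])).flatten = List.ofFn f := by
      intro n
      induction n with
      | zero => intro f; simp
      | succ n ih => intro f; rw [List.ofFn_succ, List.flatten_cons, ih (fun i => f i.succ), List.ofFn_succ]; rfl
    rw [← this]
    rfl
  rw [h]
  unfold toL
  cases s
  · simp only [sgd, Bool.false_eq_true, if_false, List.map_ofFn]
    congr 1
    funext i
    simp [flipL]
  · simp [sgd]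

theorem sgd_append (s : Bool) (W W' : List (Bool × ℕ)) : sgd s (W ++ W') = sgd s W ++ sgd s W' := by
  cases s <;> simp [sgd]

theorem sgd_TW (s : Bool) (n k a : ℕ) : sgd s (TW true n k a) = TW s n k a := by
  cases s
  · simp only [sgd, Bool.false_eq_true, if_false]
    exact TW_flip n k a
  · simp [sgd]

theorem items_alt {l : ℕ} (s : Bool) (β : Fin l → Letter m) {c : ℕ} (hc : c < 2)
    (hβ : ∀ i, (β i).1 = true ↔ ((β i).2 : ℕ) % 2 = c) :
    Alt m (if s then c else 1 - c) (items s β) := by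
  intro x hx
  unfold items at hx
  rw [List.mem_ofFn] at hx
  obtain ⟨i, rfl⟩ := hx
  have h1 := hβ i
  refine ⟨?_, ?_⟩
  · have := (β i).2.2
    omega
  · cases s
    · simp only [Bool.false_eq_true, if_false, Bool.not_eq_true']
      cases h2 : (β i).1
      · rw [h2] at h1
        simp only [Bool.false_eq_true, false_iff] at h1
        simp only [true_iff]
        omega
      · rw [h2] at h1
        simp only [true_iff] at h1
        simp only [Bool.true_eq_false, false_iff]
        omega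
    · simpa using h1

theorem items_full {l : ℕ} (s : Bool) (β : Fin l → Letter m) (hall : ∀ g, g + 1 < m → ∃ i, ((β i).2 : ℕ) = g) :
    Full m (items s β) := by
  intro g hg
  obtain ⟨i, hi⟩ := hall g hg
  refine ⟨if s then (β i).1 else !(β i).1, ?_⟩
  unfold items
  rw [List.mem_ofFn]
  exact ⟨i, by rw [hi]⟩

theorem items_fits {l : ℕ} (s : Bool) (β : Fin l → Letter m) : ∀ x ∈ items s β, x.Fits m := by
  intro x hx
  unfold items at hx
  rw [List.mem_ofFn] at hx
  obtain ⟨i, rfl⟩ := hx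
  have := (β i).2.2
  show ((β i).2 : ℕ) + 1 < m
  omega

theorem braid_word {l : ℕ} (s : Bool) (β : Fin l → Letter m) (K : ℕ) :
    sgd s (wd m (items s β) ++ TW true m 0 K) = toL β ++ TW s m 0 K := by
  rw [sgd_append, wd_items, sgd_TW]

theorem braid_main (hm3 : 3 ≤ m) (s : Bool) (K : ℕ) (hK : 1 ≤ K) (l : ℕ) (β : Fin l → Letter m) (c : ℕ)
    (hc : c < 2) (hβ : ∀ i, (β i).1 = true ↔ ((β i).2 : ℕ) % 2 = c)
    (hall : ∀ g, g + 1 < m → ∃ i, ((β i).2 : ℕ) = g) :
    (draw (braidClosure m) (toL β ++ TW s m 0 K)).close.IsClosed ∧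
    (draw (braidClosure m) (toL β ++ TW s m 0 K)).close.writhe = expo (toL β ++ TW s m 0 K) ∧
    (draw (braidClosure m) (toL β ++ TW s m 0 K)).close.fPoly ≠ 1 ∧
    ∀ c : ℕ, (draw (braidClosure m) (toL β ++ TW s m 0 K)).close.fPoly ≠ (-T 2 - T (-2)) ^ c := by
  obtain ⟨h1, h2, ε, _, _, _, _, h3⟩ := full_main (by omega) (items s β) (items_fits s β) K hK s
  obtain ⟨_, _, _, h4, h5⟩ := h3 hm3 (if s then c else 1 - c) (by split_ifs <;> omega) (items_alt s β hc hβ)
    (items_full s β hall)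
  rw [braid_word] at h1 h2 h4 h5
  exact ⟨h1, h2, h4, h5⟩

end br

end Pool.Agent.N569.TC
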