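import Mathlib

/-!
# Lattice paths and their heights
-/

set_option autoImplicit false

namespace Pool.Agent.N569.TC

open Finset

/-- the two steps: `0` is a step up, `1` a step down -/
def st (b : Fin 2) : ℤ := if b = 0 then 1 else -1

/-- the height of the path `s` at the place `i`: the sum of the steps at the places `≥ i` (the path is read from the
right; the height at the places `≥ m` is `0`) -/
def Hh {m : ℕ} (s : Fin m → Fin 2) (i : ℕ) : ℤ := ∑ k : Fin m, if i ≤ (k : ℕ) then st (s k) else 0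

/-- the path does not go below `0` -/
def Vd {m : ℕ} (s : Fin m → Fin 2) : Prop := ∀ i, 0 ≤ Hh s i

/-- exchange of the steps `i` and `i + 1` -/
def fl {m : ℕ} (i : ℕ) (s : Fin m → Fin 2) : Fin m → Fin 2 :=
  if h : i + 1 < m then s ∘ Equiv.swap ⟨i, Nat.lt_of_succ_lt h⟩ ⟨i+1, h⟩ else s

variable {m : ℕ} (s : Fin m → Fin 2)

theorem st_cases (b : Fin 2) : st b = 1 ∨ st b = -1 := by
  unfold st; split_ifs <;> simp

theorem st_inj {a b : Fin 2} (h : st a = st b) : a = b := by
  revert h; revert a b; decide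

theorem Hh_ge {i : ℕ} (h : m ≤ i) : Hh s i = 0 := by
  unfold Hh
  apply Finset.sum_eq_zero
  intro k _
  rw [if_neg]
  have := k.2
  omega

theorem Hh_lt {i : ℕ} (h : i < m) : Hh s i = st (s ⟨i, h⟩) + Hh s (i+1) := by
  unfold Hh
  have h1 : ∀ k : Fin m, (if i ≤ (k : ℕ) then st (s k) else 0) =
      (if k = ⟨i, h⟩ then st (s k) else 0) + (if i + 1 ≤ (k : ℕ) then st (s k) else 0) := by
    intro k
    by_cases hk : k = ⟨i, h⟩
    · subst hk
      simp
    · have hk' : (k : ℕ) ≠ i := fun h' => hk (Fin.ext h')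
      by_cases h2 : i ≤ (k : ℕ)
      · rw [if_pos h2, if_neg hk, if_pos (by omega), zero_add]
      · rw [if_neg h2, if_neg hk, if_neg (by omega), zero_add]
  rw [Finset.sum_congr rfl (fun k _ => h1 k), Finset.sum_add_distrib]
  congr 1
  rw [Finset.sum_ite_eq' univ (⟨i, h⟩ : Fin m) (fun k => st (s k)), if_pos (Finset.mem_univ _)]

theorem Hh_step {i : ℕ} (h : i < m) : Hh s i = Hh s (i+1) + 1 ∨ Hh s i = Hh s (i+1) - 1 := by
  rw [Hh_lt s h]
  rcases st_cases (s ⟨i, h⟩) with h1 | h1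
  · left; rw [h1]; ring
  · right; rw [h1]; ring

theorem Hh_parity {i : ℕ} (h : i ≤ m) : ∃ c : ℤ, Hh s i = (m : ℤ) - i - 2 * c := by
  obtain ⟨t, ht⟩ : ∃ t, m - i = t := ⟨_, rfl⟩
  induction t generalizing i with
  | zero =>
    have : i = m := by omega
    subst this
    exact ⟨0, by rw [Hh_ge s le_rfl]; ring⟩
  | succ t ih =>
    obtain ⟨c, hc⟩ := ih (i := i + 1) (by omega) (by omega)
    rcases Hh_step s (i := i) (by omega) with h1 | h1
    · exact ⟨c, by rw [h1, hc]; push_cast; ring⟩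
    · exact ⟨c + 1, by rw [h1, hc]; push_cast; ring⟩

theorem Hh_le {i : ℕ} (h : i ≤ m) : Hh s i ≤ (m : ℤ) - i := by
  obtain ⟨t, ht⟩ : ∃ t, m - i = t := ⟨_, rfl⟩
  induction t generalizing i with
  | zero =>
    have : i = m := by omega
    subst this
    rw [Hh_ge s le_rfl]
    simp
  | succ t ih =>
    have hc := ih (i := i + 1) (by omega) (by omega)
    push_cast at hc
    rcases Hh_step s (i := i) (by omega) with h1 | h1 <;> linarith

/-- a path is determined by its heights -/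
theorem Hh_ext {s t : Fin m → Fin 2} (h : ∀ i, i < m → Hh s i = Hh t i) : s = t := by
  funext k
  apply st_inj
  have h1 := Hh_lt s k.2
  have h2 := Hh_lt t k.2
  have h3 : Hh s (k+1) = Hh t (k+1) := by
    by_cases hk : (k : ℕ) + 1 < m
    · exact h _ hk
    · rw [Hh_ge s (by omega), Hh_ge t (by omega)]
  have h4 := h k k.2
  rw [h1, h2, h3] at h4
  exact add_right_cancel h4

theorem fl_fl (i : ℕ) : fl i (fl i s) = s := by
  unfold fl
  split_ifs with h
  · funext k
    simp
  · rfl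

theorem fl_left {i : ℕ} (h : i + 1 < m) : fl i s ⟨i, Nat.lt_of_succ_lt h⟩ = s ⟨i+1, h⟩ := by
  unfold fl
  rw [dif_pos h]
  simp

theorem fl_right {i : ℕ} (h : i + 1 < m) : fl i s ⟨i+1, h⟩ = s ⟨i, Nat.lt_of_succ_lt h⟩ := by
  unfold fl
  rw [dif_pos h]
  simp

theorem fl_other {i : ℕ} (k : Fin m) (h1 : (k : ℕ) ≠ i) (h2 : (k : ℕ) ≠ i + 1) : fl i s k = s k := by
  unfold fl
  split_ifs with h
  · simp only [Function.comp_apply]
    rw [Equiv.swap_apply_of_ne_of_ne]
    · intro h3; exact h1 (congrArg Fin.val h3)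
    · intro h3; exact h2 (congrArg Fin.val h3)
  · rfl

/-- an exchange changes only the height in the middle -/
theorem Hh_fl_ne {i j : ℕ} (h : j ≠ i + 1) : Hh (fl i s) j = Hh s j := by
  by_cases hi : i + 1 < m
  · unfold Hh
    set σ : Equiv.Perm (Fin m) := Equiv.swap ⟨i, Nat.lt_of_succ_lt hi⟩ ⟨i+1, hi⟩ with hσ
    rw [← Equiv.sum_comp σ (fun k : Fin m => if j ≤ (k : ℕ) then st (s k) else 0)]
    refine Finset.sum_congr rfl fun k _ => ?_
    have h1 : fl i s k = s (σ k) := by
      unfold fl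
      rw [dif_pos hi]
      rfl
    rw [h1]
    have h2 : (j ≤ (k : ℕ)) ↔ (j ≤ (σ k : ℕ)) := by
      by_cases h3 : k = ⟨i, Nat.lt_of_succ_lt hi⟩
      · rw [h3, hσ, Equiv.swap_apply_left]
        simp only
        omega
      · by_cases h4 : k = ⟨i+1, hi⟩
        · rw [h4, hσ, Equiv.swap_apply_right]
          simp only
          omega
        · rw [hσ, Equiv.swap_apply_of_ne_of_ne h3 h4]
    simp only [h2]
  · unfold fl
    rw [dif_neg hi]

theorem Hh_fl {i : ℕ} (h : i + 1 < m) : Hh (fl i s) (i+1) = Hh s i + Hh s (i+2) - Hh s (i+1) := by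
  have h1 := Hh_lt (fl i s) h
  have h2 := Hh_fl_ne s (i := i) (j := i + 2) (by omega)
  rw [fl_right s h] at h1
  have h3 := Hh_lt s (Nat.lt_of_succ_lt h)
  rw [h1, show i + 1 + 1 = i + 2 from rfl, h2, h3]
  ring

/-- the steps `i` and `i+1` are different if and only if the heights at `i` and `i + 2` agree -/
theorem mixed_iff {i : ℕ} (h : i + 1 < m) :
    Hh s i = Hh s (i+2) ↔ s ⟨i, Nat.lt_of_succ_lt h⟩ ≠ s ⟨i+1, h⟩ := by
  have h1 := Hh_lt s (Nat.lt_of_succ_lt h)
  have h2 := Hh_lt s h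
  rw [show i + 1 + 1 = i + 2 from rfl] at h2
  rw [h1, h2]
  generalize s ⟨i, Nat.lt_of_succ_lt h⟩ = a
  generalize s ⟨i+1, h⟩ = b
  revert a b
  intro a b
  have : ∀ a b : Fin 2, st a + st b = 0 ↔ a ≠ b := by decide
  rw [← this]
  constructor
  · intro h; linarith
  · intro h; linarith

/-- an exchange of equal steps does nothing -/
theorem fl_eq_self {i : ℕ} (h : Hh s i ≠ Hh s (i+2)) : fl i s = s := by
  by_cases hi : i + 1 < m
  · apply Hh_ext
    intro j _
    by_cases hj : j = i + 1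
    · subst hj
      rw [Hh_fl s hi]
      have h1 := Hh_step s (Nat.lt_of_succ_lt hi)
      have h2 := Hh_step s hi
      rw [show i + 1 + 1 = i + 2 from rfl] at h2
      omega
    · exact Hh_fl_ne s hj
  · unfold fl
    rw [dif_neg hi]

end Pool.Agent.N569.TC
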