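import Pool.Agent.TH561.PB.State2
import Pool.Agent.TH561.FP.JW
import Pool.Agent.N569.TC.Ht

/-!
# The path representation of the Temperley–Lieb algebra, and the combinatorial matrices
-/

set_option autoImplicit false

namespace Pool.Agent.N569.TC

open Pool.Agent.H891R2.Jones Pool.Agent.W639.RB Pool.Agent.TH561 Finset

/-! ### the path representation -/

/-- the value of the Chebyshev polynomial of index `h` at `N` (`0` for `h < 0`) -/
noncomputable def De (N : ℕ) (h : ℤ) : ℂ := FP.qn (N : ℂ) (h + 1).toNat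

theorem De_rec (N : ℕ) {h : ℤ} (hh : 0 ≤ h) : De N (h+1) + De N (h-1) = N * De N h := by
  obtain ⟨n, rfl⟩ := Int.eq_ofNat_of_zero_le hh
  unfold De
  have h1 : ((n : ℤ) + 1 + 1).toNat = n + 2 := by omega
  have h2 : ((n : ℤ) - 1 + 1).toNat = n := by omega
  have h3 : ((n : ℤ) + 1).toNat = n + 1 := by omega
  rw [h1, h2, h3, FP.qn]
  ring

theorem De_neg (N : ℕ) {h : ℤ} (hh : h < 0) : De N h = 0 := by
  unfold De
  have : (h + 1).toNat = 0 := by omega
  rw [this, FP.qn]

theorem De_zero (N : ℕ) : De N 0 = 1 := rfl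

theorem De_ne {N : ℕ} (hN : 3 ≤ N) {h : ℤ} (hh : 0 ≤ h) : De N h ≠ 0 :=
  FP.qn_ne N (by omega) _ (by omega)

open Classical in
/-- the matrix of the `i`-th generator in the path representation -/
noncomputable def JJ (m N : ℕ) (i : ℕ) : Matrix (Fin m → Fin 2) (Fin m → Fin 2) ℂ :=
  Matrix.of fun t s => if i + 1 < m ∧ Vd t ∧ Vd s ∧ Hh s i = Hh s (i+2) ∧ (t = s ∨ t = fl i s) then
    De N (Hh t (i+1)) / De N (Hh s (i+2)) else 0

open Classical in
/-- the trace functional of the path representation -/
noncomputable def tau (m N : ℕ) (X : Matrix (Fin m → Fin 2) (Fin m → Fin 2) ℂ) : ℂ :=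
  ∑ s : Fin m → Fin 2, if Vd s then De N (Hh s 0) * X s s else 0

/-! ### words -/

/-- an item: a letter `σ_i^{±1}`, or `a` positive full twists of the last `n` strands -/
inductive It : Type
  | letter (b : Bool) (i : ℕ) : It
  | twist (n a : ℕ) : It

/-- the braid word of an item -/
def It.word (m : ℕ) : It → List (Bool × ℕ)
  | It.letter b i => [(b, i)]
  | It.twist n a => TW true n (m - n) a

/-- the item is on the strands `0, …, m - 1` -/
def It.Fits (m : ℕ) : It → Prop
  | It.letter _ i => i + 1 < m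
  | It.twist n a => n ≤ m ∧ 1 ≤ a

/-! ### the combinatorial matrices -/

/-- the valid paths which end at the height `j` -/
abbrev VV (m : ℕ) (j : ℤ) : Type := {s : Fin m → Fin 2 // Vd s ∧ Hh s 0 = j}

noncomputable instance (m : ℕ) (j : ℤ) : Fintype (VV m j) := Fintype.ofFinite _

/-- the path has a peak between the steps `i` and `i + 1` -/
def Pk {m : ℕ} (i : ℕ) (s : Fin m → Fin 2) : Prop := Hh s i < Hh s (i+1) ∧ Hh s (i+2) < Hh s (i+1)

/-- the path has a valley between the steps `i` and `i + 1` -/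
def Vl {m : ℕ} (i : ℕ) (s : Fin m → Fin 2) : Prop := Hh s (i+1) < Hh s i ∧ Hh s (i+1) < Hh s (i+2)

/-- the condition of an item for a path -/
def It.OK {m : ℕ} (s : Fin m → Fin 2) : It → Prop
  | It.letter b i => if b = true then Pk i s else ¬ Pk i s
  | It.twist n _ => Hh s (m - n) = (n : ℤ) % 2

open Classical in
/-- the matrix of an item, order `0` -/
noncomputable def M0 {m : ℕ} {j : ℤ} (x : It) : Matrix (VV m j) (VV m j) ℤ :=
  Matrix.of fun t s => match x with
    | It.letter true i => if Pk i t.1 ∧ (t = s ∨ t.1 = fl i s.1) then 1 else 0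
    | It.letter false i => if t = s then (if Pk i s.1 then 0 else 1) else
        (if Pk i t.1 ∧ t.1 = fl i s.1 then -1 else 0)
    | It.twist n _ => if t = s ∧ Hh s.1 (m - n) = (n : ℤ) % 2 then 1 else 0

open Classical in
/-- the matrix of an item, order `1` -/
noncomputable def M1 {m : ℕ} {j : ℤ} (x : It) : Matrix (VV m j) (VV m j) ℤ :=
  Matrix.of fun t s => match x with
    | It.letter true i => if t = s then
        (if Hh s.1 i = Hh s.1 (i+2) ∧ ¬ (Pk i s.1 ∧ 1 ≤ Hh s.1 (i+2)) then 0 else -1) else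
        (if Pk i s.1 ∧ t.1 = fl i s.1 then 1 else 0)
    | It.letter false i => if t = s then
        (if Vl i s.1 ∨ (Pk i s.1 ∧ Hh s.1 (i+2) = 0) then -1 else 0) else
        (if Pk i s.1 ∧ t.1 = fl i s.1 then -1 else 0)
    | It.twist _ _ => 0

/-- the product of the matrices of order `0` -/
noncomputable def P0 {m : ℕ} {j : ℤ} (L : List It) : Matrix (VV m j) (VV m j) ℤ := (L.map M0).prod

/-- the derivative of the product -/
noncomputable def P1 {m : ℕ} {j : ℤ} : List It → Matrix (VV m j) (VV m j) ℤ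
  | [] => 0
  | x :: L => M1 x * P0 L + M0 x * P1 L

/-- the word is alternating with respect to the parity `c` of the positive gaps; the left boundaries of the bundles
are at negative gaps -/
def Alt (m c : ℕ) (L : List It) : Prop := ∀ x ∈ L, match x with
  | It.letter b i => i + 1 < m ∧ (b = true ↔ i % 2 = c)
  | It.twist n _ => n ≤ m ∧ ∀ g, g + n + 1 = m → g % 2 ≠ c

/-- every gap occurs -/
def Full (m : ℕ) (L : List It) : Prop := ∀ i, i + 1 < m → ∃ b, It.letter b i ∈ L

end Pool.Agent.N569.TC
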