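import Pool.Agent.N569.TC.Asy

/-!
# Expansions of the normalised matrices
-/

set_option autoImplicit false

namespace Pool.Agent.N569.TC

open Pool.Agent.H891R2.Jones Pool.Agent.W639.RB Pool.Agent.TH561 Pool.Agent.N569.TW Finset Filter Topology

section ent

variable {m : ℕ} {j : ℤ}

open Classical in
theorem M0_true (i : ℕ) (t s : VV m j) :
    M0 (It.letter true i) t s = if Pk i t.1 ∧ (t = s ∨ t.1 = fl i s.1) then 1 else 0 := rfl

open Classical in
theorem M0_false (i : ℕ) (t s : VV m j) : M0 (It.letter false i) t s =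
    if t = s then (if Pk i s.1 then 0 else 1) else (if Pk i t.1 ∧ t.1 = fl i s.1 then -1 else 0) := rfl

open Classical in
theorem M0_twist (n a : ℕ) (t s : VV m j) : M0 (It.twist n a) t s =
    if t = s ∧ Hh s.1 (m - n) = (n : ℤ) % 2 then 1 else 0 := rfl

open Classical in
theorem M1_true (i : ℕ) (t s : VV m j) : M1 (It.letter true i) t s =
    if t = s then (if Hh s.1 i = Hh s.1 (i+2) ∧ ¬ (Pk i s.1 ∧ 1 ≤ Hh s.1 (i+2)) then 0 else -1) else
        (if Pk i s.1 ∧ t.1 = fl i s.1 then 1 else 0) := rfl

open Classical in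
theorem M1_false (i : ℕ) (t s : VV m j) : M1 (It.letter false i) t s =
    if t = s then (if Vl i s.1 ∨ (Pk i s.1 ∧ Hh s.1 (i+2) = 0) then -1 else 0) else
        (if Pk i s.1 ∧ t.1 = fl i s.1 then -1 else 0) := rfl

theorem M1_twist (n a : ℕ) (t s : VV m j) : M1 (It.twist n a) t s = 0 := rfl

/-- the possible local heights -/
theorem local_cases {i : ℕ} (hi : i + 1 < m) (t s : VV m j)
    (h : Hh s.1 i = Hh s.1 (i+2) ∧ (t = s ∨ t.1 = fl i s.1)) :
    0 ≤ Hh s.1 (i+2) ∧ 0 ≤ Hh s.1 (i+1) ∧ 0 ≤ Hh t.1 (i+1) ∧ Hh t.1 i = Hh s.1 (i+2) ∧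
      Hh t.1 (i+2) = Hh s.1 (i+2) ∧ (Hh s.1 (i+1) = Hh s.1 (i+2) + 1 ∨ Hh s.1 (i+1) = Hh s.1 (i+2) - 1) ∧
      ((t = s ∧ Hh t.1 (i+1) = Hh s.1 (i+1)) ∨
        (t ≠ s ∧ t.1 = fl i s.1 ∧ Hh t.1 (i+1) = 2 * Hh s.1 (i+2) - Hh s.1 (i+1))) := by
  obtain ⟨h1, h2⟩ := h
  have h3 := Hh_step s.1 hi
  rw [show i + 1 + 1 = i + 2 from rfl] at h3
  refine ⟨s.2.1 _, s.2.1 _, t.2.1 _, ?_, ?_, h3, ?_⟩
  · rcases h2 with rfl | h2
    · exact h1
    · rw [h2, Hh_fl_ne s.1 (by omega), h1]
  · rcases h2 with rfl | h2
    · rfl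
    · rw [h2, Hh_fl_ne s.1 (by omega)]
  · rcases h2 with rfl | h2
    · exact Or.inl ⟨rfl, rfl⟩
    · right
      have h4 : Hh t.1 (i+1) = 2 * Hh s.1 (i+2) - Hh s.1 (i+1) := by
        rw [h2, Hh_fl s.1 hi, h1]; ring
      refine ⟨fun h5 => ?_, h2, h4⟩
      rw [h5] at h4
      omega

theorem ap_true {i : ℕ} (hi : i + 1 < m) : ApM (fun N => NM m j N (It.letter true i))
    (M0 (It.letter true i)) (M1 (It.letter true i)) := by
  classical
  intro t s
  have hyd : Ap (fun N => -(yy N * (if t = s then 1 else 0))) 0 (-(if t = s then 1 else 0)) := by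
    refine ((ap_yy.mul (Ap.const (if t = s then 1 else 0))).neg).cast (by simp) (by simp)
  have h1y : Ap (fun N => 1 + yy N) 1 1 := ((Ap.const 1).add ap_yy).cast (by simp) (by simp)
  rw [M0_true, M1_true]
  by_cases hc : Hh s.1 i = Hh s.1 (i+2) ∧ (t = s ∨ t.1 = fl i s.1)
  · obtain ⟨g1, g2, g3, g4, g5, g6, g7⟩ := local_cases hi t s hc
    obtain ⟨hJ1, hJ2⟩ := ap_J hi t s hc.1 hc.2
    by_cases hp : Pk i t.1
    · have h2 := (hyd.add (h1y.mul (hJ1 hp))).congr (fun N hN => (NM_true i t s N hN).symm)
      refine h2.cast ?_ ?_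
      · rw [if_pos ⟨hp, hc.2⟩]
        push_cast
        ring
      · rcases g7 with ⟨g8, g9⟩ | ⟨g8, g9, g10⟩
        · have hps : Pk i s.1 := by rw [← g8]; exact hp
          rw [if_pos g8, if_pos g8]
          by_cases h0 : Hh s.1 (i+2) = 0
          · rw [if_pos h0, if_pos ⟨hc.1, fun h => by omega⟩]
            push_cast
            ring
          · rw [if_neg h0, if_neg (fun h => h.2 ⟨hps, by omega⟩)]
            push_cast
            ring
        · have hps : ¬ Pk i s.1 := by
            intro h
            have h3 := h.2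
            have h4 := hp.2
            omega
          have h0 : Hh s.1 (i+2) ≠ 0 := by
            intro h
            have h4 := hp.2
            omega
          rw [if_neg g8, if_neg g8, if_neg h0, if_neg (fun h => hps h.1)]
          push_cast
          ring
    · have h2 := (hyd.add (h1y.mul (hJ2 hp))).congr (fun N hN => (NM_true i t s N hN).symm)
      refine h2.cast ?_ ?_
      · rw [if_neg (fun h => hp h.1)]
        push_cast
        ring
      · rcases g7 with ⟨g8, g9⟩ | ⟨g8, g9, g10⟩
        · have hps : ¬ Pk i s.1 := by rw [← g8]; exact hp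
          rw [if_pos g8, if_pos g8, if_pos ⟨hc.1, fun h => hps h.1⟩]
          push_cast
          ring
        · have hps : Pk i s.1 := by
            unfold Pk at hp ⊢
            have := hc.1
            omega
          rw [if_neg g8, if_neg g8, if_pos ⟨hps, g9⟩]
          push_cast
          ring
  · have h2 := (hyd.add (h1y.mul (ap_J0 t s hc))).congr (fun N hN => (NM_true i t s N hN).symm)
    have hnp : ∀ r : VV m j, Pk i r.1 → Hh r.1 i = Hh r.1 (i+2) := by
      intro r hr
      have h3 := Hh_step r.1 hi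
      rw [show i + 1 + 1 = i + 2 from rfl] at h3
      have h4 := Hh_step r.1 (Nat.lt_of_succ_lt hi)
      have h5 := hr.1
      have h6 := hr.2
      omega
    refine h2.cast ?_ ?_
    · rw [if_neg]
      · push_cast
        ring
      · rintro ⟨h3, h4⟩
        apply hc
        refine ⟨?_, h4⟩
        have h5 := hnp t h3
        rcases h4 with h4 | h4
        · rw [← h4]; exact h5
        · rw [h4, Hh_fl_ne s.1 (by omega), Hh_fl_ne s.1 (by omega)] at h5
          exact h5
    · by_cases hts : t = s
      · rw [if_pos hts, if_pos hts, if_neg (fun h => hc ⟨h.1, Or.inl hts⟩)]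
        push_cast
        ring
      · rw [if_neg hts, if_neg hts, if_neg (fun h => hc ⟨hnp s h.1, Or.inr h.2⟩)]
        push_cast
        ring

theorem ap_false {i : ℕ} (hi : i + 1 < m) : ApM (fun N => NM m j N (It.letter false i))
    (M0 (It.letter false i)) (M1 (It.letter false i)) := by
  classical
  intro t s
  have hyd : Ap (fun _ => (if t = s then 1 else 0 : ℂ)) (if t = s then 1 else 0) 0 := Ap.const _
  have h1y : Ap (fun N => 1 + yy N) 1 1 := ((Ap.const 1).add ap_yy).cast (by simp) (by simp)
  rw [M0_false, M1_false]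
  by_cases hc : Hh s.1 i = Hh s.1 (i+2) ∧ (t = s ∨ t.1 = fl i s.1)
  · obtain ⟨g1, g2, g3, g4, g5, g6, g7⟩ := local_cases hi t s hc
    obtain ⟨hJ1, hJ2⟩ := ap_J hi t s hc.1 hc.2
    by_cases hp : Pk i t.1
    · have h2 := (hyd.add (h1y.mul (hJ1 hp)).neg).congr (fun N hN => (NM_false i t s N hN).symm)
      rcases g7 with ⟨g8, g9⟩ | ⟨g8, g9, g10⟩
      · have hps : Pk i s.1 := by rw [← g8]; exact hp
        have hv : ¬ Vl i s.1 := by
          intro h
          have h3 := h.2
          have h4 := hps.2
          omega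
        refine h2.cast ?_ ?_
        · rw [if_pos g8, if_pos g8, if_pos hps]
          push_cast
          ring
        · rw [if_pos g8]
          by_cases h0 : Hh s.1 (i+2) = 0
          · rw [if_pos h0, if_pos (Or.inr ⟨hps, h0⟩)]
            push_cast
            ring
          · rw [if_neg h0, if_neg (by rintro (h | h); exacts [hv h, h0 h.2])]
            push_cast
            ring
      · have hps : ¬ Pk i s.1 := by
          intro h
          have h3 := h.2
          have h4 := hp.2
          omega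
        have h0 : Hh s.1 (i+2) ≠ 0 := by
          intro h
          have h4 := hp.2
          omega
        refine h2.cast ?_ ?_
        · rw [if_neg g8, if_neg g8, if_pos ⟨hp, g9⟩]
          push_cast
          ring
        · rw [if_neg g8, if_neg h0, if_neg (fun h => hps h.1)]
          push_cast
          ring
    · have h2 := (hyd.add (h1y.mul (hJ2 hp)).neg).congr (fun N hN => (NM_false i t s N hN).symm)
      rcases g7 with ⟨g8, g9⟩ | ⟨g8, g9, g10⟩
      · have hps : ¬ Pk i s.1 := by rw [← g8]; exact hp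
        have hv : Vl i s.1 := by
          unfold Pk at hps
          unfold Vl
          have := hc.1
          omega
        refine h2.cast ?_ ?_
        · rw [if_pos g8, if_pos g8, if_neg hps]
          push_cast
          ring
        · rw [if_pos g8, if_pos (Or.inl hv)]
          push_cast
          ring
      · have hps : Pk i s.1 := by
          unfold Pk at hp ⊢
          have := hc.1
          omega
        refine h2.cast ?_ ?_
        · rw [if_neg g8, if_neg g8, if_neg (fun h => hp h.1)]
          push_cast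
          ring
        · rw [if_neg g8, if_pos ⟨hps, g9⟩]
          push_cast
          ring
  · have h2 := (hyd.add (h1y.mul (ap_J0 t s hc)).neg).congr (fun N hN => (NM_false i t s N hN).symm)
    have hnp : ∀ r : VV m j, (Pk i r.1 ∨ Vl i r.1) → Hh r.1 i = Hh r.1 (i+2) := by
      intro r hr
      have h3 := Hh_step r.1 hi
      rw [show i + 1 + 1 = i + 2 from rfl] at h3
      have h4 := Hh_step r.1 (Nat.lt_of_succ_lt hi)
      rcases hr with hr | hr
      · have h5 := hr.1
        have h6 := hr.2
        omega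
      · have h5 := hr.1
        have h6 := hr.2
        omega
    by_cases hts : t = s
    · have hns : ¬ Hh s.1 i = Hh s.1 (i+2) := fun h => hc ⟨h, Or.inl hts⟩
      have hps : ¬ Pk i s.1 := fun h => hns (hnp s (Or.inl h))
      have hvs : ¬ Vl i s.1 := fun h => hns (hnp s (Or.inr h))
      refine h2.cast ?_ ?_
      · rw [if_pos hts, if_pos hts, if_neg hps]
        push_cast
        ring
      · rw [if_pos hts, if_neg (by rintro (h | h); exacts [hvs h, hps h.1])]
        push_cast
        ring
    · have hnt : ¬ (Pk i t.1 ∧ t.1 = fl i s.1) := by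
        rintro ⟨h3, h4⟩
        apply hc
        have h5 := hnp t (Or.inl h3)
        rw [h4, Hh_fl_ne s.1 (by omega), Hh_fl_ne s.1 (by omega)] at h5
        exact ⟨h5, Or.inr h4⟩
      refine h2.cast ?_ ?_
      · rw [if_neg hts, if_neg hts, if_neg hnt]
        push_cast
        ring
      · rw [if_neg hts, if_neg (fun h => hc ⟨hnp s (Or.inl h.1), Or.inr h.2⟩)]
        push_cast
        ring

/-- powers of the small parameter -/
theorem ap_yy_pow {e : ℕ} (he : 2 ≤ e) : Ap (fun N => yy N ^ e) 0 0 := by
  induction e, he using Nat.le_induction with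
  | base =>
    refine ((ap_yy.mul ap_yy).cast (by simp) (by simp)).congr fun N _ => ?_
    ring
  | succ e he ih =>
    refine ((ih.mul ap_yy).cast (by simp) (by simp)).congr fun N _ => ?_
    ring

theorem ap_twist (hF : FFd m) {n : ℕ} (hn : n ≤ m) {a : ℕ} (ha : 1 ≤ a) :
    ApM (fun N => NM m j N (It.twist n a)) (M0 (It.twist n a)) (M1 (It.twist n a)) := by
  classical
  intro t s
  rw [M0_twist, M1_twist]
  -- the value
  have hval : ∀ N, 3 ≤ N → NM m j N (It.twist n a) t s = if t = s then
      (Bb N) ^ ((a : ℤ) * ((Hh s.1 (m - n)) ^ 2 + 2 * Hh s.1 (m - n) -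
        (((n : ℤ) % 2)^2 + 2 * ((n : ℤ) % 2)))) else 0 := by
    intro N hN
    have hB := Bb_ne hN
    unfold NM
    rw [Matrix.smul_apply, smul_eq_mul]
    unfold sub
    rw [Matrix.of_apply]
    simp only [It.word]
    rw [TW_apply hF hN hB (Bb_d hN) hn a t.1 s.1 s.2.1]
    simp only [un, Subtype.ext_iff]
    split_ifs
    · rw [← zpow_neg, ← zpow_add₀ hB]
      congr 1
      ring
    · rw [mul_zero]
  obtain ⟨c, hc⟩ := Hh_parity s.1 (i := m - n) (by omega)
  have hcast : ((m - n : ℕ) : ℤ) = (m : ℤ) - n := by omega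
  rw [hcast] at hc
  have h0 := s.2.1 (m - n)
  obtain ⟨r, hr⟩ : ∃ r : ℕ, Hh s.1 (m - n) = (n : ℤ) % 2 + 2 * r := by
    refine ⟨((Hh s.1 (m - n)) / 2).toNat, ?_⟩
    omega
  by_cases hts : t = s
  · by_cases hr0 : r = 0
    · have h1 : Hh s.1 (m - n) = (n : ℤ) % 2 := by rw [hr, hr0]; simp
      refine ((Ap.const 1).cast ?_ ?_).congr fun N hN => ?_
      · rw [if_pos ⟨hts, h1⟩]; push_cast; rfl
      · push_cast; rfl
      · simp only []
        rw [hval N hN, if_pos hts, h1, sub_self, mul_zero, zpow_zero]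
    · have h1 : Hh s.1 (m - n) ≠ (n : ℤ) % 2 := by rw [hr]; omega
      set h0' := ((n : ℤ) % 2).toNat with hh0
      have hn2 : (n : ℤ) % 2 = (h0' : ℤ) := by rw [hh0, Int.toNat_of_nonneg (by omega)]
      have he : 2 ≤ a * (r * (h0' + r + 1)) := by
        have h3 : 1 ≤ r := by omega
        calc 2 = 1 * (1 * (0 + 1 + 1)) := by norm_num
          _ ≤ a * (r * (h0' + r + 1)) := by gcongr; omega
      refine ((ap_yy_pow he).cast ?_ ?_).congr fun N hN => ?_
      · rw [if_neg (fun h => h1 h.2)]; push_cast; rfl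
      · push_cast; rfl
      · simp only []
        rw [hval N hN, if_pos hts, hr, hn2]
        unfold yy
        rw [← pow_mul, ← zpow_natCast]
        congr 1
        push_cast
        ring
  · refine ((Ap.const 0).cast ?_ ?_).congr fun N hN => ?_
    · rw [if_neg (fun h => hts h.1)]; push_cast; rfl
    · push_cast; rfl
    · simp only []
      rw [hval N hN, if_neg hts]

theorem ap_NM (hF : FFd m) (x : It) (hx : x.Fits m) : ApM (fun N => NM m j N x) (M0 x) (M1 x) := by
  rcases x with ⟨b, i⟩ | ⟨n, a⟩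
  · cases b
    · exact ap_false hx
    · exact ap_true hx
  · exact ap_twist hF hx.1 hx.2

theorem ap_prod (hF : FFd m) (L : List It) (hL : ∀ x ∈ L, x.Fits m) :
    ApM (fun N => (L.map (NM m j N)).prod) (P0 L) (P1 L) := by
  induction L with
  | nil =>
    simpa [P0, P1] using (ApM.one (m := m) (j := j))
  | cons x L ih =>
    have h1 := (ap_NM (j := j) hF x (hL x List.mem_cons_self)).mul
      (ih (fun y hy => hL y (List.mem_cons_of_mem _ hy)))
    have h2 : P0 (x :: L) = M0 x * (P0 L : Matrix (VV m j) (VV m j) ℤ) := by simp [P0]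
    rw [h2]
    have h3 : P1 (x :: L) = M1 x * P0 L + M0 x * (P1 L : Matrix (VV m j) (VV m j) ℤ) := rfl
    rw [h3]
    simpa using h1

end ent

end Pool.Agent.N569.TC
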