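import Pool.Agent.N569.TC.Tot
import Pool.Agent.N42.TC.TL
import Pool.Agent.N130.TC.TR
import Pool.Agent.N615.TC.FT
import Pool.Agent.N615.TC.UN
import Pool.Agent.N40.TC.PB

/-!
# The Jones polynomial of twisted braids
-/

set_option autoImplicit false

namespace Pool.Agent.N569.TC

open Pool.Agent.H891R2.Jones Pool.Agent.W639.RB Pool.Agent.TH561 Pool.Agent.N569.TW Finset Filter Topology
  LaurentPolynomial

section fin

variable {m : ℕ}

theorem tauLam (m : ℕ) : TauLam m := fun N hN L hL =>
  Pool.Agent.N130.TC.tau_lam (fun N hN => Pool.Agent.N42.TC.isTL_JJ m N hN) N hN L hL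

theorem ffd (m : ℕ) : FFd m := fun N hN A hA hd n hn t s hs =>
  Pool.Agent.N615.TC.FF_JJ N hN A hA hd n hn t s hs

open Classical in
/-- the number of the valid paths which end at the height `0` or `1` and satisfy all conditions -/
noncomputable def pths (m : ℕ) (L : List It) : ℕ :=
  #{s : Fin m → Fin 2 | Vd s ∧ Hh s 0 = (m : ℤ) % 2 ∧ ∀ x ∈ L, x.OK s}

theorem mcast (m : ℕ) : ((m % 2 : ℕ) : ℤ) = (m : ℤ) % 2 := by omega

theorem card_VV (j : ℤ) (Q : (Fin m → Fin 2) → Prop) [DecidablePred Q]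
    [DecidablePred (fun s : VV m j => Q s.1)] [DecidablePred (fun s : Fin m → Fin 2 => Vd s ∧ Hh s 0 = j ∧ Q s)] :
    #{s : VV m j | Q s.1} = #{s : Fin m → Fin 2 | Vd s ∧ Hh s 0 = j ∧ Q s} := by
  classical
  rw [← Finset.card_image_of_injective _ (Subtype.val_injective (p := fun s : Fin m → Fin 2 => Vd s ∧ Hh s 0 = j))]
  congr 1
  ext s
  simp only [Finset.mem_image, Finset.mem_filter, Finset.mem_univ, true_and]
  constructor
  · rintro ⟨u, hu, rfl⟩
    exact ⟨u.2.1, u.2.2, hu⟩
  · rintro ⟨h1, h2, h3⟩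
    exact ⟨⟨s, h1, h2⟩, h3, rfl⟩

theorem trace_P0 (L : List It) (hL : ∀ x ∈ L, x.Fits m) (j : ℤ) (hj : j = (m : ℤ) % 2) :
    Matrix.trace (P0 L : Matrix (VV m j) (VV m j) ℤ) = pths m L := by
  classical
  subst hj
  rw [Pool.Agent.N40.TC.P0_trace L hL]
  unfold pths
  rw [← card_VV ((m : ℤ) % 2) (fun s => ∀ x ∈ L, x.OK s)]

/-- the exponent of an item in the normalised bracket -/
def dgr : It → ℤ
  | It.letter true _ => 6
  | It.letter false _ => -2
  | It.twist n a => 3 * a * ((n : ℤ)^2 - (n : ℤ) % 2)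

theorem dgr_eq (x : It) (hx : x.Fits m) : dgr x = ex x + 3 * expo (x.word m) := by
  rcases x with ⟨b, i⟩ | ⟨n, a⟩
  · cases b
    · simp [dgr, ex, It.word, expo]
    · simp [dgr, ex, It.word, expo]
  · simp only [dgr, ex, It.word]
    have h1 := hx.1
    have h2 : expo (TW true n (m - n) a) = a * (n * (n - 1) : ℤ) := by
      rcases Nat.eq_zero_or_pos n with h | h
      · subst h
        have : TW true 0 (m - 0) a = [] := by
          rw [← List.length_eq_zero_iff, TW_length]
          simp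
        rw [this]
        simp [expo]
      · have h3 := expo_pos (TW true n (m - n) a) (TW_fst true n (m - n) a)
        rw [h3, TW_length]
        push_cast [Nat.cast_sub h]
        ring
    rw [h2]
    have h3 : ((n : ℤ) % 2)^2 = (n : ℤ) % 2 := by
      have : (n : ℤ) % 2 = 0 ∨ (n : ℤ) % 2 = 1 := by omega
      rcases this with h | h <;> rw [h] <;> norm_num
    rw [h3]
    ring

/-- the extreme exponent -/
def FE (m : ℕ) (L : List It) (K : ℕ) : ℤ :=
  (L.map dgr).sum + 3 * K * ((m : ℤ)^2 - (m : ℤ) % 2) - 2 + 2 * ((m : ℤ) % 2)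

theorem expo_wd (L : List It) : expo (wd m L) = (L.map (fun x => expo (x.word m))).sum := by
  induction L with
  | nil => simp [wd, expo]
  | cons x L ih => rw [wd_cons, expo_append, ih, List.map_cons, List.sum_cons]

theorem expo_full (K : ℕ) : expo (TW true m 0 K) = K * (m * (m - 1) : ℤ) := by
  have h3 := expo_pos (TW true m 0 K) (TW_fst true m 0 K)
  rw [h3, TW_length]
  rcases Nat.eq_zero_or_pos m with h | h
  · subst h; simp
  · push_cast [Nat.cast_sub h]
    ring

theorem FE_eq (L : List It) (hL : ∀ x ∈ L, x.Fits m) (K : ℕ) :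
    FE m L K = ((L.map ex).sum + 3 * K * ((m : ℤ) - (m % 2 : ℕ)) - 2 + 2 * (m % 2 : ℕ)) +
      3 * expo (wd m L ++ TW true m 0 K) := by
  have h1 : (L.map dgr).sum = (L.map ex).sum + 3 * (L.map (fun x => expo (x.word m))).sum := by
    induction L with
    | nil => simp
    | cons x L ih =>
      simp only [List.map_cons, List.sum_cons]
      rw [ih (fun y hy => hL y (List.mem_cons_of_mem _ hy)), dgr_eq x (hL x List.mem_cons_self)]
      ring
  unfold FE
  rw [expo_append, expo_wd, expo_full, h1, mcast]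
  ring

/-- the word of the closed braid or of its mirror image -/
def sgd (s : Bool) (W : List (Bool × ℕ)) : List (Bool × ℕ) := if s then W else W.map flipL

theorem word_mem (L : List It) (hL : ∀ x ∈ L, x.Fits m) (K : ℕ) :
    ∀ x ∈ wd m L ++ TW true m 0 K, x.2 + 1 < m := by
  intro y hy
  rcases List.mem_append.1 hy with hy | hy
  · exact wd_mem L hL y hy
  · exact TW_mem true m 0 K (by omega) y hy

/-- the extreme coefficients of the normalised bracket -/
theorem main1 (hm : 0 < m) (L : List It) (hL : ∀ x ∈ L, x.Fits m) (K : ℕ) (hK : 1 ≤ K) (s : Bool) :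
    (draw (braidClosure m) (sgd s (wd m L ++ TW true m 0 K))).close.IsClosed ∧
    (draw (braidClosure m) (sgd s (wd m L ++ TW true m 0 K))).close.writhe =
      eps s * expo (wd m L ++ TW true m 0 K) ∧
    ∃ ε : ℤ, (ε = 1 ∨ ε = -1) ∧
      (draw (braidClosure m) (sgd s (wd m L ++ TW true m 0 K))).close.fPoly.coeff (-eps s * FE m L K) =
        ε * pths m L ∧
      (draw (braidClosure m) (sgd s (wd m L ++ TW true m 0 K))).close.fPoly.coeff (-eps s * (FE m L K - 4)) =
        ε * sec m K L ∧
      ∀ n, FE m L K - 4 < n → n ≠ FE m L K →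
        (draw (braidClosure m) (sgd s (wd m L ++ TW true m 0 K))).close.fPoly.coeff (-eps s * n) = 0 := by
  set W := wd m L ++ TW true m 0 K with hWd
  have hW : ∀ x ∈ W, x.2 + 1 < m := word_mem L hL K
  set E : ℤ := (L.map ex).sum + 3 * K * ((m : ℤ) - (m % 2 : ℕ)) - 2 + 2 * (m % 2 : ℕ) with hE
  obtain ⟨h1, h2, h3⟩ := bracket_top (tauLam m) (ffd m) hm L hL K hK E _ hE rfl _ rfl
  rw [← hWd] at h1 h2 h3
  rw [trace_P0 L hL _ (mcast m)] at h1
  have hFE : FE m L K = E + 3 * expo W := FE_eq L hL K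
  have hsx : (L.map sx).prod = 1 ∨ (L.map sx).prod = -1 := by
    clear h1 h2 h3 hFE hE hW hWd hL
    induction L with
    | nil => simp
    | cons x L ih =>
      rw [List.map_cons, List.prod_cons]
      have hx : sx x = 1 ∨ sx x = -1 := by
        rcases x with ⟨b, i⟩ | ⟨n, a⟩
        · cases b <;> simp [sx]
        · simp [sx]
      rcases hx with hx | hx <;> rcases ih with ih | ih <;> rw [hx, ih] <;> norm_num
  -- the mirror image
  have hwr : (draw (braidClosure m) (W.map flipL)).close.writhe = -expo W := by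
    rw [writhe_eq _ (flip_mem _ hW), expo_flip]
  have hf : ∀ n, (draw (braidClosure m) (W.map flipL)).close.fPoly.coeff n =
      (if Even (-expo W) then 1 else -1) *
        (draw (braidClosure m) (W.map flipL)).close.bracket.coeff (n - 3 * expo W) := by
    intro n
    unfold Diagram.fPoly
    rw [hwr]
    have h4 : (T (-3 * -expo W) * (draw (braidClosure m) (W.map flipL)).close.bracket).coeff n =
        (draw (braidClosure m) (W.map flipL)).close.bracket.coeff (n - 3 * expo W) := by
      rw [coeff_T_mul]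
      congr 1
      ring
    split_ifs
    · rw [one_mul, one_mul, h4]
    · have h5 : (-1 * T (-3 * -expo W) * (draw (braidClosure m) (W.map flipL)).close.bracket : ℤ[T;T⁻¹]) =
        -(T (-3 * -expo W) * (draw (braidClosure m) (W.map flipL)).close.bracket) := by ring
      rw [h5, AddMonoidAlgebra.coeff_neg, Finsupp.neg_apply, h4]
      ring
  set ε0 : ℤ := (if Even (-expo W) then 1 else -1) * ((L.map sx).prod * (if m % 2 = 0 then -1 else 1)) with hε0
  have hε : ε0 = 1 ∨ ε0 = -1 := by
    rw [hε0]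
    rcases hsx with h | h <;> rw [h] <;> split_ifs <;> norm_num
  have g1 : (draw (braidClosure m) (W.map flipL)).close.fPoly.coeff (FE m L K) = ε0 * pths m L := by
    rw [hf, hFE, add_sub_cancel_right, h1, hε0]
    ring
  have g2 : (draw (braidClosure m) (W.map flipL)).close.fPoly.coeff (FE m L K - 4) = ε0 * sec m K L := by
    rw [hf, hFE]
    have : E + 3 * expo W - 4 - 3 * expo W = E - 4 := by ring
    rw [this, h2, hε0]
    ring
  have g3 : ∀ n, FE m L K - 4 < n → n ≠ FE m L K →
      (draw (braidClosure m) (W.map flipL)).close.fPoly.coeff n = 0 := by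
    intro n hn hne
    rw [hf, h3 _ (by linarith) (by intro h; apply hne; linarith), mul_zero]
  have hflip := fPoly_flip hm W hW
  cases s
  · have e1 : sgd false W = W.map flipL := by simp [sgd]
    have e2 : eps false = -1 := by simp [eps]
    rw [e1, e2]
    refine ⟨draw_closed _ _ (flip_mem _ hW) (fun _ => rfl) (closure_closed m), ?_, ε0, hε, ?_, ?_, ?_⟩
    · rw [hwr]; ring
    · rw [neg_neg, one_mul]; exact g1
    · rw [neg_neg, one_mul]; exact g2
    · intro n hn hne
      rw [neg_neg, one_mul]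
      exact g3 n hn hne
  · have e1 : sgd true W = W := by simp [sgd]
    have e2 : eps true = 1 := by simp [eps]
    rw [e1, e2]
    have hinv : ∀ n, (draw (braidClosure m) W).close.fPoly.coeff (-1 * n) =
        (draw (braidClosure m) (W.map flipL)).close.fPoly.coeff n := by
      intro n
      rw [hflip, invert_apply]
      congr 1
      ring
    refine ⟨draw_closed _ _ hW (fun _ => rfl) (closure_closed m), ?_, ε0, hε, ?_, ?_, ?_⟩
    · rw [writhe_eq _ hW]; ring
    · rw [hinv]; exact g1
    · rw [hinv]; exact g2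
    · intro n hn hne
      rw [hinv]
      exact g3 n hn hne

/-! ### unlinks -/

theorem coeff_dl_pow2 (c : ℕ) : (dl ^ c).coeff (2 * (c : ℤ) - 4) = (-1) ^ c * c := by
  induction c with
  | zero =>
    rw [pow_zero]
    simp only [Nat.cast_zero, mul_zero]
    have : (1 : ℤ[T;T⁻¹]) = T 0 := T_zero.symm
    rw [this]
    unfold T
    rw [AddMonoidAlgebra.coeff_single, Finsupp.single_apply]
    norm_num
  | succ c ih =>
    rw [pow_succ', coeff_dl_mul]
    have e1 : 2 * ((c + 1 : ℕ) : ℤ) - 4 - 2 = 2 * (c : ℤ) - 4 := by push_cast; ring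
    have e2 : 2 * ((c + 1 : ℕ) : ℤ) - 4 + 2 = 2 * (c : ℤ) := by push_cast; ring
    rw [e1, e2, ih, coeff_dl_pow, pow_succ]
    push_cast
    ring

/-- the bracket of an unlink has a first coefficient `± 1` and a second one with the same sign on both sides -/
theorem not_unlink (p : ℤ[T;T⁻¹]) (s : Bool) (F ε a σ : ℤ) (hε : ε = 1 ∨ ε = -1)
    (h1 : p.coeff (-eps s * F) = ε * a) (h2 : p.coeff (-eps s * (F - 4)) = ε * σ)
    (h3 : ∀ n, F - 4 < n → n ≠ F → p.coeff (-eps s * n) = 0) (ha : 2 ≤ a ∨ (a = 1 ∧ σ < 0)) (c : ℕ) :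
    p ≠ dl ^ c := by
  intro hp
  have hinv : ∀ n, (dl ^ c).coeff (-eps s * n) = (dl ^ c).coeff n := by
    intro n
    cases s
    · simp [eps]
    · have h4 : invert (dl ^ c) = dl ^ c := by rw [map_pow, inv_dl]
      have h5 : (invert (dl ^ c)).coeff n = (dl ^ c).coeff (-n) := invert_apply _ _
      rw [h4] at h5
      simp only [eps, if_true]
      rw [neg_one_mul]
      exact h5.symm
  rw [hp, hinv] at h1 h2
  have h3' : ∀ n, F - 4 < n → n ≠ F → (dl ^ c).coeff n = 0 := by
    intro n hn hne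
    rw [← hinv, ← hp]
    exact h3 n hn hne
  have hdg := dg_dl c
  have htop := coeff_dl_pow c
  have ha0 : 1 ≤ a := by
    rcases ha with h | h
    · linarith
    · linarith [h.1]
  have hF : F = 2 * c := by
    by_contra hne
    rcases lt_or_gt_of_ne hne with h | h
    · have h5 := h3' (2 * c) (by linarith) (Ne.symm hne)
      rw [h5] at htop
      rcases Nat.even_or_odd c with h6 | h6
      · rw [h6.neg_one_pow] at htop; norm_num at htop
      · rw [h6.neg_one_pow] at htop; norm_num at htop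
    · have h5 := hdg F h
      rw [h5] at h1
      rcases hε with h6 | h6 <;> rw [h6] at h1 <;> linarith
  rw [hF, htop] at h1
  rw [hF, coeff_dl_pow2] at h2
  have hc0 : (0 : ℤ) ≤ c := Int.natCast_nonneg c
  rcases Nat.even_or_odd c with h6 | h6
  · rw [h6.neg_one_pow] at h1 h2
    rcases hε with h7 | h7 <;> rw [h7] at h1 h2 <;> rcases ha with h8 | ⟨h8, h9⟩ <;> nlinarith
  · rw [h6.neg_one_pow] at h1 h2
    rcases hε with h7 | h7 <;> rw [h7] at h1 h2 <;> rcases ha with h8 | ⟨h8, h9⟩ <;> nlinarith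

/-- the trace of the derivative -/
def P1Trace : Prop := ∀ (m c : ℕ), c < 2 → 3 ≤ m → ∀ L : List It, Alt m c L → Full m L →
    Matrix.trace (P1 L : Matrix (VV m ((m : ℤ) % 2)) (VV m ((m : ℤ) % 2)) ℤ) ≤ -1

theorem alt_fits (c : ℕ) (L : List It) (hA : Alt m c L) (ha : ∀ n a, It.twist n a ∈ L → 1 ≤ a) :
    ∀ x ∈ L, x.Fits m := by
  intro x hx
  have h := hA x hx
  rcases x with ⟨b, i⟩ | ⟨n, a⟩
  · exact h.1
  · exact ⟨h.1, ha n a hx⟩

theorem alt_main (hP : P1Trace) (c : ℕ) (hc : c < 2) (hm : 3 ≤ m) (L : List It) (hA : Alt m c L)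
    (hF : Full m L) (ha : ∀ n a, It.twist n a ∈ L → 1 ≤ a) (K : ℕ) :
    pths m L = 1 ∧ sec m K L < 0 := by
  classical
  have hL := alt_fits c L hA ha
  have h1 : pths m L = 1 := by
    obtain ⟨s, _, hs, _⟩ := Pool.Agent.N615.TC.OK_exists c hc hm L hA
    have h2 : (pths m L : ℤ) = 1 := by
      rw [← trace_P0 L hL _ rfl, Pool.Agent.N40.TC.P0_trace L hL]
      have h3 : ({s : VV m ((m : ℤ) % 2) | ∀ x ∈ L, x.OK s.1} : Finset (VV m ((m : ℤ) % 2))) = {s} := by
        ext t
        simp only [Finset.mem_filter, Finset.mem_univ, true_and, Finset.mem_singleton]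
        constructor
        · intro ht
          exact Pool.Agent.N615.TC.OK_unique c hc L hA hF t s ht hs
        · rintro rfl
          exact hs
      rw [h3]
      simp
    exact_mod_cast h2
  refine ⟨h1, ?_⟩
  have h2 := hP m c hc hm L hA hF
  have h3 : ∀ j : ℤ, j = (m : ℤ) % 2 → Matrix.trace (P1 L : Matrix (VV m j) (VV m j) ℤ) ≤ -1 := by
    rintro j rfl
    exact h2
  have h4 := h3 _ (mcast m)
  have h5 := trace_P0 L hL _ (mcast m)
  have h6 : ct m K L ≤ if m % 2 = 0 then 1 else 0 := by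
    unfold ct
    by_cases h7 : K = 1 ∧ m % 2 = 0 ∧ 2 ≤ m
    · rw [if_pos h7, if_pos h7.2.1, Pool.Agent.N40.TC.P0_trace L hL]
      have h8 : #({s : VV m ((2 : ℕ) : ℤ) | ∀ x ∈ L, x.OK s.1} : Finset (VV m ((2 : ℕ) : ℤ))) ≤ 1 := by
        rw [Finset.card_le_one]
        intro t ht t' ht'
        rw [Finset.mem_filter] at ht ht'
        exact Pool.Agent.N615.TC.OK_unique c hc L hA hF t t' ht.2 ht'.2
      exact_mod_cast h8
    · rw [if_neg h7]
      split_ifs <;> norm_num
  unfold sec
  rw [h5, h1]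
  split_ifs at h6 ⊢ <;> push_cast <;> linarith

end fin

end Pool.Agent.N569.TC
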