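import Pool.Agent.N569.TC.Br
import Pool.Agent.N571.TLF.Pairs

/-!
# Vassiliev invariants of one order for the twisted braids
-/

set_option autoImplicit false

namespace Pool.Agent.N569.TC

open Pool.Agent.H891R2.Jones Pool.Agent.W639.RB Pool.Agent.TH561 Pool.Agent.N569.TW Finset
  LaurentPolynomial Pool.Agent.Y463.SK Pool.Agent.H832R3.VJ Pool.Agent.N571.TLF

section ord

variable {m : ℕ}

/-- the closure of the braid word `W` with the finite set of its marked points -/
def cl (m : ℕ) (W : List (Bool × ℕ)) : Dia :=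
  ⟨(draw (braidClosure m) W).P, inferInstance, (draw (braidClosure m) W).close⟩

/-- the word as a list of letters -/
def toW (m : ℕ) (W : List (Bool × ℕ)) : List (Letter m) :=
  W.filterMap (fun x => if h : x.2 + 1 < m then some (x.1, (⟨x.2, by omega⟩ : Fin (m - 1))) else none)

def back (m : ℕ) (w : List (Letter m)) : List (Bool × ℕ) := w.map (fun x => (x.1, (x.2 : ℕ)))

theorem back_toW (W : List (Bool × ℕ)) (hW : ∀ x ∈ W, x.2 + 1 < m) : back m (toW m W) = W := by
  induction W with
  | nil => rfl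
  | cons x W ih =>
    have h1 := hW x (List.mem_cons_self ..)
    have h2 := ih (fun y hy => hW y (List.mem_cons_of_mem _ hy))
    unfold back toW at h2 ⊢
    rw [List.filterMap_cons, dif_pos h1]
    simp only [List.map_cons]
    rw [h2]

theorem back_append (a b : List (Letter m)) : back m (a ++ b) = back m a ++ back m b := by
  simp [back]

theorem back_flatten (a : List (List (Letter m))) : back m a.flatten = (a.map (back m)).flatten := by
  unfold back
  rw [List.map_flatten]

theorem back_powW (w : List (Letter m)) (n : ℕ) :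
    back m (powW w (n : ℤ)) = (List.replicate n (back m w)).flatten := by
  show back m (List.replicate n w).flatten = _
  rw [back_flatten, List.map_replicate]

theorem cl_eq (w : List (Letter m)) : DD (braidClosure m) w = cl m (back m w) := rfl

/-- simple items: letters and single full twists -/
def It.Simple : It → Prop
  | It.letter _ _ => True
  | It.twist _ a => a = 1

/-- the words of the syllables and of a full twist -/
def bw (m : ℕ) (s : Bool) {r : ℕ} (x : Fin r → It) : Fin (r + 1) → List (Letter m) :=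
  Fin.snoc (α := fun _ => List (Letter m)) (fun i => toW m (sgd s ((x i).word m))) (toW m (TW s m 0 1))

/-- the exponents -/
def exv {r : ℕ} (n : Fin r → ℕ) (K : ℕ) : Fin (r + 1) → ℤ :=
  Fin.snoc (α := fun _ => ℤ) (fun i => (n i : ℤ)) (K : ℤ)

/-- the items `x_1^{n_1} ⋯ x_r^{n_r}` -/
def Lst {r : ℕ} (x : Fin r → It) (n : Fin r → ℕ) : List It :=
  (List.ofFn (fun i => List.replicate (n i) (x i))).flatten

theorem TW_rep (s : Bool) (n k a : ℕ) : TW s n k a = (List.replicate a (TW s n k 1)).flatten := by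
  unfold TW
  simp

theorem sgd_flatten (s : Bool) (l : List (List (Bool × ℕ))) : sgd s l.flatten = (l.map (sgd s)).flatten := by
  induction l with
  | nil => cases s <;> rfl
  | cons a l ih => rw [List.flatten_cons, sgd_append, ih, List.map_cons, List.flatten_cons]

theorem wd_flatten (l : List (List It)) : wd m l.flatten = (l.map (wd m)).flatten := by
  induction l with
  | nil => rfl
  | cons a l ih =>
    rw [List.flatten_cons, List.map_cons, List.flatten_cons, ← ih]
    simp [wd]

theorem wd_replicate (n : ℕ) (x : It) : wd m (List.replicate n x) = (List.replicate n (x.word m)).flatten := by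
  unfold wd
  rw [List.map_replicate]

theorem sgd_mem (s : Bool) (W : List (Bool × ℕ)) (h : ∀ x ∈ W, x.2 + 1 < m) : ∀ x ∈ sgd s W, x.2 + 1 < m := by
  cases s
  · intro x hx
    simp only [sgd, Bool.false_eq_true, if_false, List.mem_map] at hx
    obtain ⟨y, hy, rfl⟩ := hx
    exact h y hy
  · simpa [sgd] using h

theorem back_multiW (s : Bool) {r : ℕ} (x : Fin r → It) (hx : ∀ i, (x i).Fits m) (n : Fin r → ℕ) (K : ℕ) :
    back m (multiW (bw m s x) (fun _ => []) (exv n K)) = sgd s (wd m (Lst x n) ++ TW true m 0 K) := by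
  rw [sgd_append, sgd_TW]
  unfold multiW
  rw [back_flatten, List.map_ofFn, List.ofFn_succ', List.concat_eq_append, List.flatten_append]
  congr 1
  · rw [Lst, wd_flatten, sgd_flatten, List.map_ofFn, List.map_ofFn]
    congr 2
    funext i
    show back m (powW (bw m s x i.castSucc) (exv n K i.castSucc) ++ []) = sgd s (wd m (List.replicate (n i) (x i)))
    rw [List.append_nil, bw, exv, Fin.snoc_castSucc, Fin.snoc_castSucc, back_powW,
      back_toW _ (sgd_mem s _ (It.word_mem (x i) (hx i))), wd_replicate, sgd_flatten, List.map_replicate]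
  · show [back m (powW (bw m s x (Fin.last r)) (exv n K (Fin.last r)) ++ [])].flatten = _
    rw [List.append_nil, bw, exv, Fin.snoc_last, Fin.snoc_last, back_powW, back_toW, TW_rep s m 0 K]
    · simp
    · exact TW_mem s m 0 1 (by omega)

/-- for fixed syllables there is one order for all exponents -/
theorem one_order (hm : 0 < m) {r : ℕ} (x : Fin r → It) (hx : ∀ i, (x i).Fits m) (s : Bool) :
    ∃ d : ℕ, ∀ (n : Fin r → ℕ) (K : ℕ),
      (draw (braidClosure m) (sgd s (wd m (Lst x n) ++ TW true m 0 K))).close.fPoly ≠ 1 →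
      Separated d (cl m (sgd s (wd m (Lst x n) ++ TW true m 0 K))) unknot := by
  obtain ⟨d, hd⟩ := uniform_unknot hm (braidClosure m) (bw m s x) (fun _ => [])
  refine ⟨d, fun n K h => ?_⟩
  have h1 := hd (exv n K)
  rw [← back_multiW s x hx n K] at h ⊢
  exact h1 h

theorem one_order_pairs {m' : ℕ} (hm : 0 < m) (hm' : 0 < m') {r r' : ℕ} (x : Fin r → It)
    (hx : ∀ i, (x i).Fits m) (x' : Fin r' → It) (hx' : ∀ i, (x' i).Fits m') (s s' : Bool) :
    ∃ d : ℕ, ∀ (n : Fin r → ℕ) (K : ℕ) (n' : Fin r' → ℕ) (K' : ℕ),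
      (draw (braidClosure m) (sgd s (wd m (Lst x n) ++ TW true m 0 K))).close.fPoly ≠
      (draw (braidClosure m') (sgd s' (wd m' (Lst x' n') ++ TW true m' 0 K'))).close.fPoly →
      Separated d (cl m (sgd s (wd m (Lst x n) ++ TW true m 0 K)))
        (cl m' (sgd s' (wd m' (Lst x' n') ++ TW true m' 0 K'))) := by
  obtain ⟨d, hd⟩ := uniform_pairs hm hm' (braidClosure m) (bw m s x) (fun _ => [])
    (braidClosure m') (bw m' s' x') (fun _ => [])
  refine ⟨d, fun n K n' K' h => ?_⟩
  have h1 := hd (exv n K) (exv n' K')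
  rw [← back_multiW s x hx n K, ← back_multiW s' x' hx' n' K'] at h ⊢
  exact h1 h

/-- the simple items on `m` strands -/
abbrev SI (m : ℕ) : Type := {x : It // x.Fits m ∧ x.Simple}

instance instFiniteSI (m : ℕ) : Finite (SI m) := by
  let f : (Bool × Fin m) ⊕ Fin (m + 1) → It := fun y => match y with
    | Sum.inl (b, i) => It.letter b i
    | Sum.inr n => It.twist n 1
  have h1 : (Set.range f).Finite := Set.finite_range f
  have h0 : {x : It | x.Fits m ∧ x.Simple}.Finite := by
   refine h1.subset ?_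
   rintro (⟨b, i⟩ | ⟨n, a⟩) ⟨h2, h3⟩
   · exact ⟨Sum.inl (b, ⟨i, by
       have : i + 1 < m := h2
       omega⟩), rfl⟩
   · have h4 : n ≤ m := h2.1
     have h5 : a = 1 := h3
     subst h5
     exact ⟨Sum.inr ⟨n, by omega⟩, rfl⟩
  exact h0.to_subtype

theorem sep_mono {d d' : ℕ} (h : d ≤ d') {X Y : Dia} (hs : Separated d X Y) : Separated d' X Y := by
  obtain ⟨n, hn, v, hv, hne⟩ := hs
  exact ⟨n, hn.trans h, v, hv, hne⟩

/-- one order for all words with at most `r` syllables -/
theorem order_syl (hm : 0 < m) (r : ℕ) :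
    ∃ d : ℕ, ∀ (x : Fin r → It), (∀ i, (x i).Fits m ∧ (x i).Simple) → ∀ (n : Fin r → ℕ) (K : ℕ) (s : Bool),
      (draw (braidClosure m) (sgd s (wd m (Lst x n) ++ TW true m 0 K))).close.fPoly ≠ 1 →
      Separated d (cl m (sgd s (wd m (Lst x n) ++ TW true m 0 K))) unknot := by
  classical
  have h1 := fun (y : (Fin r → SI m) × Bool) => one_order hm (fun i => (y.1 i).1) (fun i => (y.1 i).2.1) y.2
  choose d hd using h1
  letI : Fintype ((Fin r → SI m) × Bool) := Fintype.ofFinite _
  refine ⟨univ.sup d, fun x hx n K s hne => ?_⟩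
  exact sep_mono (Finset.le_sup (Finset.mem_univ ((fun i => ⟨x i, hx i⟩ : Fin r → SI m), s)))
    (hd ((fun i => ⟨x i, hx i⟩ : Fin r → SI m), s) n K hne)

theorem order_syl_pairs {m' : ℕ} (hm : 0 < m) (hm' : 0 < m') (r r' : ℕ) :
    ∃ d : ℕ, ∀ (x : Fin r → It), (∀ i, (x i).Fits m ∧ (x i).Simple) → ∀ (n : Fin r → ℕ) (K : ℕ) (s : Bool),
      ∀ (x' : Fin r' → It), (∀ i, (x' i).Fits m' ∧ (x' i).Simple) → ∀ (n' : Fin r' → ℕ) (K' : ℕ) (s' : Bool),
      (draw (braidClosure m) (sgd s (wd m (Lst x n) ++ TW true m 0 K))).close.fPoly ≠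
      (draw (braidClosure m') (sgd s' (wd m' (Lst x' n') ++ TW true m' 0 K'))).close.fPoly →
      Separated d (cl m (sgd s (wd m (Lst x n) ++ TW true m 0 K)))
        (cl m' (sgd s' (wd m' (Lst x' n') ++ TW true m' 0 K'))) := by
  classical
  have h1 := fun (y : ((Fin r → SI m) × Bool) × ((Fin r' → SI m') × Bool)) =>
    one_order_pairs hm hm' (fun i => (y.1.1 i).1) (fun i => (y.1.1 i).2.1) (fun i => (y.2.1 i).1)
      (fun i => (y.2.1 i).2.1) y.1.2 y.2.2
  choose d hd using h1
  letI : Fintype (((Fin r → SI m) × Bool) × ((Fin r' → SI m') × Bool)) := Fintype.ofFinite _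
  refine ⟨univ.sup d, fun x hx n K s x' hx' n' K' s' hne => ?_⟩
  exact sep_mono (Finset.le_sup (Finset.mem_univ
      (((fun i => ⟨x i, hx i⟩ : Fin r → SI m), s), ((fun i => ⟨x' i, hx' i⟩ : Fin r' → SI m'), s'))))
    (hd (((fun i => ⟨x i, hx i⟩ : Fin r → SI m), s), ((fun i => ⟨x' i, hx' i⟩ : Fin r' → SI m'), s'))
      n K n' K' hne)

/-! ### consequences of the main theorem -/

theorem ne_one (hm : 0 < m) (L : List It) (hL : ∀ x ∈ L, x.Fits m) (K : ℕ) (hK : 1 ≤ K) (s : Bool)
    (h : (1 ≤ pths m L ∧ FE m L K ≠ 0) ∨ 2 ≤ pths m L ∨ (3 ≤ m ∧ ∃ c < 2, Alt m c L ∧ Full m L)) :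
    (draw (braidClosure m) (sgd s (wd m L ++ TW true m 0 K))).close.fPoly ≠ 1 := by
  obtain ⟨_, _, ε, hε, h3, _, h4, h5⟩ := full_main hm L hL K hK s
  rcases h with ⟨h1, h2⟩ | h | ⟨h1, c, hc, hA, hF⟩
  · intro h6
    rw [h6] at h3
    have h7 : (1 : ℤ[T;T⁻¹]) = T 0 := (LaurentPolynomial.T_zero).symm
    rw [h7, LaurentPolynomial.T, AddMonoidAlgebra.coeff_single, Finsupp.single_apply, if_neg] at h3
    · have h8 : (1 : ℤ) ≤ pths m L := by exact_mod_cast h1
      rcases hε with rfl | rfl <;> omega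
    · intro h8
      apply h2
      cases s
      · simp only [eps, Bool.false_eq_true, if_false] at h8
        omega
      · simp only [eps, if_true] at h8
        omega
  · intro h6
    exact h4 h 0 (by rw [h6, pow_zero])
  · obtain ⟨_, _, _, h6, _⟩ := h5 h1 c hc hA hF
    exact h6

theorem ne_pair {m' : ℕ} (hm : 0 < m) (L : List It) (hL : ∀ x ∈ L, x.Fits m) (K : ℕ) (hK : 1 ≤ K) (s : Bool)
    (hm' : 0 < m') (L' : List It) (hL' : ∀ x ∈ L', x.Fits m') (K' : ℕ) (hK' : 1 ≤ K')
    (h : 1 ≤ pths m L) (h' : 1 ≤ pths m' L') (hne : FE m L K ≠ FE m' L' K' ∨ pths m L ≠ pths m' L') :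
    (draw (braidClosure m) (sgd s (wd m L ++ TW true m 0 K))).close.fPoly ≠
      (draw (braidClosure m') (sgd s (wd m' L' ++ TW true m' 0 K'))).close.fPoly := by
  obtain ⟨_, _, ε, hε, h3, h4, _⟩ := full_main hm L hL K hK s
  obtain ⟨_, _, ε', hε', h3', h4', _⟩ := full_main hm' L' hL' K' hK' s
  intro he
  have h8 : (1 : ℤ) ≤ pths m L := by exact_mod_cast h
  have h8' : (1 : ℤ) ≤ pths m' L' := by exact_mod_cast h'
  rcases lt_trichotomy (FE m L K) (FE m' L' K') with h5 | h5 | h5
  · have h6 := h4 _ h5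
    rw [he, h3'] at h6
    rcases hε' with rfl | rfl <;> omega
  · rw [he, h5, h3'] at h3
    rcases hne with h6 | h6
    · exact h6 h5
    · apply h6
      rcases hε with rfl | rfl <;> rcases hε' with rfl | rfl <;> omega
  · have h6 := h4' _ h5
    rw [← he, h3] at h6
    rcases hε with rfl | rfl <;> omega

theorem Lst_fits {r : ℕ} (x : Fin r → It) (hx : ∀ i, (x i).Fits m) (n : Fin r → ℕ) :
    ∀ y ∈ Lst x n, y.Fits m := by
  intro y hy
  unfold Lst at hy
  rw [List.mem_flatten] at hy
  obtain ⟨l, hl, hy⟩ := hy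
  rw [List.mem_ofFn] at hl
  obtain ⟨i, rfl⟩ := hl
  rw [List.mem_replicate] at hy
  rw [hy.2]
  exact hx i

/-- the letters `σ_{g i}` with the alternating signs, positive at the gaps of parity `c` -/
def alet (m c : ℕ) {r : ℕ} (g : Fin r → Fin (m - 1)) : Fin r → It :=
  fun i => It.letter (decide ((g i : ℕ) % 2 = c)) (g i : ℕ)

/-- the alternating braid word `σ_{g_1}^{± n_1} ⋯ σ_{g_r}^{± n_r}` -/
def aword (m c : ℕ) {r : ℕ} (g : Fin r → Fin (m - 1)) (n : Fin r → ℕ) : List (Bool × ℕ) :=
  (List.ofFn (fun i => List.replicate (n i) (decide ((g i : ℕ) % 2 = c), (g i : ℕ)))).flatten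

theorem aword_eq (c : ℕ) {r : ℕ} (g : Fin r → Fin (m - 1)) (n : Fin r → ℕ) :
    wd m (Lst (alet m c g) n) = aword m c g n := by
  unfold Lst aword
  rw [wd_flatten, List.map_ofFn]
  congr 2
  funext i
  show wd m (List.replicate (n i) (alet m c g i)) = _
  rw [wd_replicate]
  show (List.replicate (n i) [(decide ((g i : ℕ) % 2 = c), (g i : ℕ))]).flatten = _
  rw [List.flatten_replicate_singleton]

theorem aword_false {c : ℕ} (hc : c < 2) {r : ℕ} (g : Fin r → Fin (m - 1)) (n : Fin r → ℕ) :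
    sgd false (aword m (1 - c) g n) = aword m c g n := by
  unfold aword
  rw [sgd_flatten, List.map_ofFn]
  congr 2
  funext i
  show sgd false (List.replicate (n i) _) = _
  simp only [sgd, Bool.false_eq_true, if_false, List.map_replicate, flipL]
  congr 2
  by_cases h : (g i : ℕ) % 2 = c
  · rw [decide_eq_true h]
    simp only [Bool.not_eq_eq_eq_not, Bool.not_true, decide_eq_false_iff_not]
    omega
  · rw [decide_eq_false h]
    simp only [Bool.not_eq_eq_eq_not, Bool.not_false, decide_eq_true_eq]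
    omega

theorem alet_alt {c : ℕ} {r : ℕ} (g : Fin r → Fin (m - 1)) (n : Fin r → ℕ) :
    Alt m c (Lst (alet m c g) n) := by
  intro x hx
  unfold Lst at hx
  rw [List.mem_flatten] at hx
  obtain ⟨l, hl, hx⟩ := hx
  rw [List.mem_ofFn] at hl
  obtain ⟨i, rfl⟩ := hl
  rw [List.mem_replicate] at hx
  rw [hx.2]
  refine ⟨by have := (g i).2; omega, by simp⟩

theorem alet_full {c : ℕ} {r : ℕ} (g : Fin r → Fin (m - 1)) (n : Fin r → ℕ)
    (hall : ∀ j, j + 1 < m → ∃ i, (g i : ℕ) = j ∧ 1 ≤ n i) : Full m (Lst (alet m c g) n) := by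
  intro j hj
  obtain ⟨i, hi, hn⟩ := hall j hj
  refine ⟨decide ((g i : ℕ) % 2 = c), ?_⟩
  unfold Lst
  rw [List.mem_flatten]
  refine ⟨_, List.mem_ofFn.2 ⟨i, rfl⟩, ?_⟩
  rw [List.mem_replicate]
  exact ⟨by omega, by rw [← hi]; rfl⟩

theorem alet_ok {c : ℕ} {r : ℕ} (g : Fin r → Fin (m - 1)) (i : Fin r) :
    (alet m c g i).Fits m ∧ (alet m c g i).Simple :=
  ⟨by have := (g i).2; show (g i : ℕ) + 1 < m; omega, trivial⟩

/-- the words of the alternating braids with full twists -/
theorem aword_twist {c : ℕ} (hc : c < 2) (s : Bool) {r : ℕ} (g : Fin r → Fin (m - 1)) (n : Fin r → ℕ) (K : ℕ) :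
    sgd s (wd m (Lst (alet m (if s then c else 1 - c) g) n) ++ TW true m 0 K) =
      aword m c g n ++ TW s m 0 K := by
  rw [aword_eq, sgd_append, sgd_TW]
  cases s
  · simp only [Bool.false_eq_true, if_false]
    rw [aword_false hc]
  · simp [sgd]

end ord

end Pool.Agent.N569.TC
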