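import Pool.Agent.N569.TC.Ord

/-!
# The extreme exponents of the twisted alternating braids
-/

set_option autoImplicit false

namespace Pool.Agent.N569.TC

open Pool.Agent.H891R2.Jones Pool.Agent.W639.RB Pool.Agent.TH561 Pool.Agent.N569.TW Finset
  LaurentPolynomial Pool.Agent.Y463.SK Pool.Agent.H832R3.VJ Pool.Agent.N571.TLF

section ord2

variable {m : ℕ}

/-- six times the number of the letters of the sign `s` minus twice the number of the other letters -/
def score (s : Bool) (W : List (Bool × ℕ)) : ℤ :=
  6 * (W.countP (fun x => x.1 == s) : ℤ) - 2 * (W.countP (fun x => x.1 != s) : ℤ)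

theorem score_append (s : Bool) (W W' : List (Bool × ℕ)) : score s (W ++ W') = score s W + score s W' := by
  unfold score
  rw [List.countP_append, List.countP_append]
  push_cast
  ring

theorem score_sgd (s : Bool) (W : List (Bool × ℕ)) : score s (sgd s W) = score true W := by
  cases s
  · unfold score
    simp only [sgd, Bool.false_eq_true, if_false, List.countP_map]
    have h1 : ((fun x : Bool × ℕ => x.1 == false) ∘ flipL) = fun x => x.1 == true := by
      funext x; rcases x with ⟨b, i⟩; cases b <;> rfl
    have h2 : ((fun x : Bool × ℕ => x.1 != false) ∘ flipL) = fun x => x.1 != true := by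
      funext x; rcases x with ⟨b, i⟩; cases b <;> rfl
    rw [h1, h2]
  · simp [sgd]

theorem score_wd (L : List It) (hL : ∀ x ∈ L, ∃ b i, x = It.letter b i) :
    score true (wd m L) = (L.map dgr).sum := by
  induction L with
  | nil => simp [wd, score]
  | cons x L ih =>
    rw [wd_cons, score_append, ih (fun y hy => hL y (List.mem_cons_of_mem _ hy)), List.map_cons, List.sum_cons]
    congr 1
    obtain ⟨b, i, rfl⟩ := hL x (List.mem_cons_self ..)
    cases b <;> simp [It.word, score, dgr]

theorem Lst_letters {r : ℕ} (g : Fin r → Fin (m - 1)) (c : ℕ) (n : Fin r → ℕ) :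
    ∀ x ∈ Lst (alet m c g) n, ∃ b i, x = It.letter b i := by
  intro y hy
  unfold Lst at hy
  rw [List.mem_flatten] at hy
  obtain ⟨l, hl, hy⟩ := hy
  rw [List.mem_ofFn] at hl
  obtain ⟨i, rfl⟩ := hl
  rw [List.mem_replicate] at hy
  rw [hy.2]
  exact ⟨_, _, rfl⟩

theorem FE_alet {c : ℕ} (hc : c < 2) (s : Bool) {r : ℕ} (g : Fin r → Fin (m - 1)) (n : Fin r → ℕ) (K : ℕ) :
    FE m (Lst (alet m (if s then c else 1 - c) g) n) K =
      score s (aword m c g n) + 3 * K * ((m : ℤ)^2 - (m : ℤ) % 2) - 2 + 2 * ((m : ℤ) % 2) := by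
  unfold FE
  rw [← score_wd _ (Lst_letters g _ n), aword_eq]
  congr 3
  cases s
  · simp only [Bool.false_eq_true, if_false]
    rw [← aword_false hc, score_sgd]
  · simp

end ord2

end Pool.Agent.N569.TC
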