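import Pool.Agent.N569.TC.Defs

/-!
# Statements (work in progress, do not import in results)
-/

set_option autoImplicit false

namespace Pool.Agent.N569.TC.Stm

open Pool.Agent.N569.TC Pool.Agent.H891R2.Jones Pool.Agent.W639.RB Pool.Agent.TH561 Finset

variable {m : ℕ} {j : ℤ}

/-! ### TCA: the representation -/

/-- TCA/TL -/
theorem isTL_JJ (m N : ℕ) (hN : 3 ≤ N) : IsTL m (N : ℂ) (JJ m N) := sorry

/-- TCA/TR -/
theorem tau_lam (hTL : ∀ N : ℕ, 3 ≤ N → IsTL m (N : ℂ) (JJ m N)) (N : ℕ) (hN : 3 ≤ N) (L : List ℕ)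
    (hL : ∀ i ∈ L, i + 1 < m) : tau m N (WP (JJ m N) L) = (N : ℂ) ^ (lam m L) := sorry

/-- TCA/FT -/
theorem FF_JJ (N : ℕ) (hN : 3 ≤ N) (A : ℂ) (hA : A ≠ 0) (hd : (N : ℂ) = -A^2 - A⁻¹^2) (n : ℕ)
    (hn : n ≤ m) (t s : Fin m → Fin 2) (hs : Vd s) :
    FF (sg A (JJ m N)) n (m - n) t s =
      if t = s then A ^ ((Hh s (m - n)) ^ 2 + 2 * Hh s (m - n) - 3 * (n : ℤ)) else 0 := sorry

/-! ### TCB: combinatorics -/

open Classical in
/-- TCB/ZO (1) -/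
theorem P0_diag (L : List It) (hL : ∀ x ∈ L, x.Fits m) (s : VV m j) :
    P0 L s s = if ∀ x ∈ L, x.OK s.1 then 1 else 0 := sorry

open Classical in
/-- TCB/ZO (2) -/
theorem P0_trace (L : List It) (hL : ∀ x ∈ L, x.Fits m) :
    Matrix.trace (P0 L : Matrix (VV m j) (VV m j) ℤ) = #{s : VV m j | ∀ x ∈ L, x.OK s.1} := sorry

/-- TCB/ZO (3): `t` is obtained from the path `s` with a valley at `g` by an exchange -/
theorem P0_pair (x : It) (L : List It) (hx : x.Fits m) (hL : ∀ x ∈ L, x.Fits m) (g : ℕ) (hg : g + 1 < m)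
    (s t : VV m j) (hs : Vl g s.1) (ht : t.1 = fl g s.1) :
    P0 (x :: L) t s = M0 x t t * P0 L t s + M0 x t s * P0 L s s := sorry

/-- TCB/UN (1): at most one path satisfies all conditions -/
theorem OK_unique (c : ℕ) (hc : c < 2) (L : List It) (hA : Alt m c L) (hF : Full m L) (s s' : VV m j)
    (hs : ∀ x ∈ L, x.OK s.1) (hs' : ∀ x ∈ L, x.OK s'.1) : s = s' := sorry

/-- TCB/UN (2): there is one such path, and the gap `m - 3` can be exchanged, which violates the condition of the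
gap `m - 2` -/
theorem OK_exists (c : ℕ) (hc : c < 2) (hm : 3 ≤ m) (L : List It) (hA : Alt m c L) :
    ∃ s t : VV m ((m : ℤ) % 2), (∀ x ∈ L, x.OK s.1) ∧ t.1 = fl (m - 3) s.1 ∧
      ((m - 3) % 2 = c → Pk (m - 3) s.1 ∧ Vl (m - 3) t.1 ∧ ¬ Pk (m - 2) s.1 ∧ Pk (m - 2) t.1) ∧
      ((m - 3) % 2 ≠ c → Vl (m - 3) s.1 ∧ Pk (m - 3) t.1 ∧ Pk (m - 2) s.1 ∧ ¬ Pk (m - 2) t.1) := sorry

/-- TCB/PB (1): positive gap `g`, peak `t`, valley `s` -/
theorem pair_pos (c : ℕ) (hc : c < 2) (X : List It) (hA : Alt m c X) (g : ℕ) (hg : g + 1 < m)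
    (hgc : g % 2 = c) (s t : VV m j) (hs : Vl g s.1) (ht : t.1 = fl g s.1) :
    (0 ≤ P0 X t s ∧ P0 X t s ≤ 1) ∧
    ((∃ y ∈ X, ¬ y.OK t.1) → P0 X t s = 0) ∧
    (∀ (X1 X2 : List It) (b b' : Bool) (i : ℕ), X = X1 ++ It.letter b i :: X2 → i ≠ g →
      It.letter b' g ∉ X2 → b' = true → ¬ (It.letter b i).OK s.1 → P0 X t s = 0) := sorry

/-- TCB/PB (2): negative gap `g`, peak `t`, valley `s` -/
theorem pair_neg (c : ℕ) (hc : c < 2) (X : List It) (hA : Alt m c X) (g : ℕ) (hg : g + 1 < m)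
    (hgc : g % 2 ≠ c) (s t : VV m j) (hs : Vl g s.1) (ht : t.1 = fl g s.1) :
    (-1 ≤ P0 X t s ∧ P0 X t s ≤ 0) ∧
    ((∃ y ∈ X, ¬ y.OK s.1) → P0 X t s = 0) ∧
    (∀ (X1 X2 : List It) (b b' : Bool) (i : ℕ), X = X1 ++ It.letter b i :: X2 → i ≠ g →
      It.letter b' g ∉ X1 → b' = false → ¬ (It.letter b i).OK t.1 → P0 X t s = 0) := sorry

/-- TCB/SU: the trace of the derivative -/
theorem P1_trace (c : ℕ) (hc : c < 2) (hm : 3 ≤ m) (L : List It) (hA : Alt m c L) (hF : Full m L) :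
    Matrix.trace (P1 L : Matrix (VV m ((m : ℤ) % 2)) (VV m ((m : ℤ) % 2)) ℤ) ≤ -1 := sorry

end Pool.Agent.N569.TC.Stm
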