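import Pool.Agent.N569.TC.Ent

/-!
# Coefficients of Laurent polynomials from their values for large loop value
-/

set_option autoImplicit false

namespace Pool.Agent.N569.TC

open Pool.Agent.H891R2.Jones Pool.Agent.W639.RB Pool.Agent.TH561 Pool.Agent.N569.TW Finset Filter Topology
  LaurentPolynomial

section top

/-- the value of a Laurent polynomial -/
noncomputable def evv (p : ℤ[T;T⁻¹]) (N : ℕ) : ℂ := if h : 3 ≤ N then ev N h p else 0

theorem evv_eq (p : ℤ[T;T⁻¹]) {N : ℕ} (hN : 3 ≤ N) : evv p N = ev N hN p := dif_pos hN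

theorem ev_sum (p : ℤ[T;T⁻¹]) (N : ℕ) (hN : 3 ≤ N) :
    ev N hN p = ∑ n ∈ p.coeff.support, (p.coeff n : ℂ) * (Ar N) ^ n := by
  have h : ev N hN p = p.coeff.sum (fun n c => (c : ℂ) * (Ar N) ^ n) := by
    induction p using LaurentPolynomial.induction_on' with
    | add p q hp hq =>
      rw [map_add, hp, hq, AddMonoidAlgebra.coeff_add, Finsupp.sum_add_index']
      · intro a; simp
      · intro a b c; push_cast; ring
    | C_mul_T n a =>
      rw [map_mul, ev_T]
      have h1 : ev N hN (C a) = (a : ℂ) := by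
        unfold ev
        rw [LaurentPolynomial.eval₂_C]
        simp
      have h2 : (C a * T n : ℤ[T;T⁻¹]).coeff = Finsupp.single n a := by
        rw [← LaurentPolynomial.single_eq_C_mul_T]
        rfl
      rw [h1, h2, Finsupp.sum_single_index]
      simp
  rw [h]
  rfl

theorem Bb_tendsto : Tendsto Bb atTop (𝓝 0) := by
  rw [tendsto_zero_iff_norm_tendsto_zero]
  have h1 : Tendsto (fun N => Real.sqrt (Real.sqrt ‖yy N‖)) atTop (𝓝 0) := by
    have h2 := (tendsto_zero_iff_norm_tendsto_zero.1 yy_tendsto)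
    have h3 := (Real.continuous_sqrt.tendsto 0).comp h2
    rw [Real.sqrt_zero] at h3
    have h4 := (Real.continuous_sqrt.tendsto 0).comp h3
    rw [Real.sqrt_zero] at h4
    exact h4
  refine h1.congr fun N => ?_
  unfold yy
  rw [norm_pow]
  have h2 : ‖Bb N‖ ^ 4 = (‖Bb N‖ ^ 2) ^ 2 := by ring
  rw [h2, Real.sqrt_sq (by positivity), Real.sqrt_sq (norm_nonneg _)]

theorem Ar_neg_tendsto {k : ℤ} (hk : k < 0) : Tendsto (fun N => (Ar N) ^ k) atTop (𝓝 0) := by
  obtain ⟨n, rfl⟩ : ∃ n : ℕ, k = -((n : ℤ) + 1) := ⟨(-k - 1).toNat, by omega⟩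
  have h := Bb_tendsto.pow (n + 1)
  rw [zero_pow (Nat.succ_ne_zero n)] at h
  refine h.congr fun N => ?_
  unfold Bb
  rw [zpow_neg, inv_pow]
  congr 1

theorem top_tendsto (p : ℤ[T;T⁻¹]) (M : ℤ) (hM : ∀ n, M < n → p.coeff n = 0) :
    Tendsto (fun N => evv p N * (Ar N) ^ (-M)) atTop (𝓝 (p.coeff M : ℂ)) := by
  have h1 : Tendsto (fun N => ∑ n ∈ p.coeff.support, (p.coeff n : ℂ) * (Ar N) ^ (n - M)) atTop
      (𝓝 (∑ n ∈ p.coeff.support, (p.coeff n : ℂ) * (if n = M then 1 else 0))) := by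
    apply tendsto_finsetSum
    intro n hn
    apply Tendsto.const_mul
    by_cases h : n = M
    · rw [if_pos h, h]
      simp
    · rw [if_neg h]
      apply Ar_neg_tendsto
      by_contra hcon
      have := hM n (by omega)
      exact (Finsupp.mem_support_iff.1 hn) this
  have h2 : ∑ n ∈ p.coeff.support, (p.coeff n : ℂ) * (if n = M then 1 else 0) = (p.coeff M : ℂ) := by
    by_cases h : M ∈ p.coeff.support
    · rw [Finset.sum_eq_single M]
      · simp
      · intro n _ hn; rw [if_neg hn, mul_zero]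
      · intro h'; exact absurd h h'
    · rw [Finset.sum_eq_zero, Finsupp.notMem_support_iff.1 h]
      · simp
      · intro n hn
        rw [if_neg (fun h' : n = M => h (h' ▸ hn)), mul_zero]
  rw [h2] at h1
  refine h1.congr' ?_
  filter_upwards [eventually_ge_atTop 3] with N hN
  rw [evv_eq p hN, ev_sum, Finset.sum_mul]
  refine Finset.sum_congr rfl fun n _ => ?_
  rw [mul_assoc, ← zpow_add₀ (Ar_ne N hN)]
  rfl

theorem coeff_of_tendsto (p : ℤ[T;T⁻¹]) (e : ℤ) (c : ℂ)
    (h : Tendsto (fun N => evv p N * (Ar N) ^ (-e)) atTop (𝓝 c)) :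
    (∀ n, e < n → p.coeff n = 0) ∧ (p.coeff e : ℂ) = c := by
  have h1 : ∀ n, e < n → p.coeff n = 0 := by
    by_contra hcon
    push Not at hcon
    obtain ⟨n, hn, hne⟩ := hcon
    have hsup : p.coeff.support.Nonempty := ⟨n, Finsupp.mem_support_iff.2 hne⟩
    set M := p.coeff.support.max' hsup with hM
    have hM1 : p.coeff M ≠ 0 := Finsupp.mem_support_iff.1 (Finset.max'_mem _ _)
    have hM2 : ∀ k, M < k → p.coeff k = 0 := by
      intro k hk
      by_contra hk0
      have := Finset.le_max' _ k (Finsupp.mem_support_iff.2 hk0)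
      rw [← hM] at this
      omega
    have hM3 : n ≤ M := Finset.le_max' _ n (Finsupp.mem_support_iff.2 hne)
    have h2 := top_tendsto p M hM2
    have h3 : Tendsto (fun N => (evv p N * (Ar N) ^ (-e)) * (Ar N) ^ (e - M)) atTop (𝓝 (c * 0)) :=
      h.mul (Ar_neg_tendsto (by omega))
    rw [mul_zero] at h3
    have h4 : Tendsto (fun N => evv p N * (Ar N) ^ (-M)) atTop (𝓝 0) := by
      refine h3.congr' ?_
      filter_upwards [eventually_ge_atTop 3] with N hN
      rw [mul_assoc, ← zpow_add₀ (Ar_ne N hN)]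
      congr 2
      ring
    have h5 := tendsto_nhds_unique h2 h4
    exact hM1 (by exact_mod_cast h5)
  exact ⟨h1, tendsto_nhds_unique (top_tendsto p e h1) h⟩

/-- two coefficients from a first-order expansion -/
theorem coeffs_of_Ap (p : ℤ[T;T⁻¹]) (e a b : ℤ) (h : Ap (fun N => evv p N * (Ar N) ^ (-e)) a b) :
    p.coeff e = a ∧ p.coeff (e - 4) = b ∧ ∀ n, e - 4 < n → n ≠ e → p.coeff n = 0 := by
  obtain ⟨h1, h2⟩ := coeff_of_tendsto p e a h.tendsto
  have h2' : p.coeff e = a := by exact_mod_cast h2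
  set q : ℤ[T;T⁻¹] := p - C a * T e with hq
  have hqc : ∀ n, q.coeff n = p.coeff n - (if n = e then a else 0) := by
    intro n
    rw [hq, AddMonoidAlgebra.coeff_sub, Finsupp.sub_apply, ← LaurentPolynomial.single_eq_C_mul_T]
    congr 1
    have : (AddMonoidAlgebra.single e a : ℤ[T;T⁻¹]).coeff n = (Finsupp.single e a) n := rfl
    rw [this, Finsupp.single_apply]
    simp only [eq_comm]
  have h3 : Tendsto (fun N : ℕ => ((N : ℂ)^2 * yy N)⁻¹) atTop (𝓝 1) := by
    have h4 : Tendsto (fun N : ℕ => (N : ℂ)^2 * (yy N - 0)) atTop (𝓝 1) := ap_yy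
    have h5 := h4.inv₀ one_ne_zero
    simpa using h5
  have h4 : Tendsto (fun N => evv q N * (Ar N) ^ (-(e - 4))) atTop (𝓝 (b : ℂ)) := by
    have h5 : Tendsto (fun N : ℕ => (N : ℂ)^2 * (evv p N * (Ar N) ^ (-e) - a)) atTop (𝓝 (b : ℂ)) := h
    have h6 := h5.mul h3
    rw [mul_one] at h6
    refine h6.congr' ?_
    filter_upwards [eventually_ge_atTop 3] with N hN
    have hA := Ar_ne N hN
    have hN0 : (N : ℂ) ≠ 0 := Nat.cast_ne_zero.2 (by omega)
    rw [evv_eq q hN, evv_eq p hN, hq, map_sub, map_mul, ev_T]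
    have h7 : ev N hN (C a) = (a : ℂ) := by
      unfold ev
      rw [LaurentPolynomial.eval₂_C]
      simp
    rw [h7]
    have h8 : (yy N)⁻¹ = (Ar N) ^ (4 : ℤ) := by
      unfold yy Bb
      rw [inv_pow, inv_inv]
      norm_cast
    have h9 : (Ar N) ^ (-(e - 4)) = (Ar N) ^ (-e) * (Ar N) ^ (4 : ℤ) := by
      rw [← zpow_add₀ hA]
      congr 1
      ring
    rw [mul_inv, h8, h9]
    have h10 : (Ar N) ^ e * (Ar N) ^ (-e) = 1 := by rw [← zpow_add₀ hA]; simp
    calc (N : ℂ) ^ 2 * (ev N hN p * Ar N ^ (-e) - a) * (((N : ℂ) ^ 2)⁻¹ * Ar N ^ (4 : ℤ))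
        = ((N : ℂ) ^ 2 * ((N : ℂ) ^ 2)⁻¹) * ((ev N hN p * Ar N ^ (-e) - a) * Ar N ^ (4 : ℤ)) := by ring
      _ = (ev N hN p * Ar N ^ (-e) - a * 1) * Ar N ^ (4 : ℤ) := by
          rw [mul_inv_cancel₀ (pow_ne_zero 2 hN0), one_mul, mul_one]
      _ = _ := by rw [← h10]; ring
  obtain ⟨h5, h6⟩ := coeff_of_tendsto q (e - 4) b h4
  refine ⟨h2', ?_, fun n hn hne => ?_⟩
  · have h7 : q.coeff (e - 4) = b := by exact_mod_cast h6
    rw [hqc, if_neg (by omega), sub_zero] at h7
    exact h7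
  · have h7 := h5 n hn
    rw [hqc, if_neg hne, sub_zero] at h7
    exact h7

end top

end Pool.Agent.N569.TC
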