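import Pool.Agent.N569.TC.Top

/-!
# The extreme coefficients of the bracket of a twisted braid
-/

set_option autoImplicit false

namespace Pool.Agent.N569.TC

open Pool.Agent.H891R2.Jones Pool.Agent.W639.RB Pool.Agent.TH561 Pool.Agent.N569.TW Finset Filter Topology
  LaurentPolynomial

section tot

variable {m : ℕ}

/-- the sign of an item -/
def sx : It → ℤ
  | It.letter true _ => -1
  | _ => 1

/-- the exponent of an item -/
def ex : It → ℤ
  | It.letter true _ => 3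
  | It.letter false _ => 1
  | It.twist n a => (a : ℤ) * (3 * n - ((n : ℤ) % 2)^2 - 2 * ((n : ℤ) % 2))

theorem un_eq {N : ℕ} (hN : 3 ≤ N) (x : It) : un (Bb N) x = (sx x : ℂ) * (Ar N) ^ (ex x) := by
  have hA := Ar_ne N hN
  have h : ∀ k : ℤ, (Bb N) ^ k = (Ar N) ^ (-k) := by
    intro k
    unfold Bb
    rw [inv_zpow', ]
  rcases x with ⟨b, i⟩ | ⟨n, a⟩
  · cases b
    · simp only [un, sx, ex]
      rw [h]
      simp
    · simp only [un, sx, ex]
      rw [h]
      norm_num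
  · simp only [un, sx, ex]
    rw [h]
    push_cast
    rw [one_mul]
    congr 1
    ring

theorem un_prod {N : ℕ} (hN : 3 ≤ N) (L : List It) : (L.map (un (Bb N))).prod =
    (((L.map sx).prod : ℤ) : ℂ) * (Ar N) ^ ((L.map ex).sum) := by
  induction L with
  | nil => simp
  | cons x L ih =>
    rw [List.map_cons, List.prod_cons, ih, un_eq hN, List.map_cons, List.prod_cons, List.map_cons, List.sum_cons,
      zpow_add₀ (Ar_ne N hN)]
    push_cast
    ring

theorem MR_flip (N : ℕ) (W : List (Bool × ℕ)) :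
    MR (Ar N) m N (W.map flipL) = MR (Bb N) m N W := by
  unfold MR
  rw [List.map_map]
  congr 1
  apply List.map_congr_left
  intro x _
  simp only [Function.comp_apply]
  have hs : sgn (flipL x) = -sgn x := by
    obtain ⟨b, i⟩ := x
    cases b <;> simp [sgn, flipL]
  unfold ML Bb
  rw [hs, inv_zpow', inv_zpow', neg_neg]
  rfl

/-- the coefficient of the block `j` -/
noncomputable def kap (m K j : ℕ) (N : ℕ) : ℂ :=
  De N j / De N (m % 2 : ℕ) * (Bb N) ^ ((K : ℤ) * ((j : ℤ)^2 + 2 * j - ((m % 2 : ℕ) : ℤ)^2 - 2 * ((m % 2 : ℕ) : ℤ)))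

theorem ap_kap (K r : ℕ) (hK : 1 ≤ K) (hr : 1 ≤ r) : Ap (kap m K (m % 2 + 2 * r)) 0
    (if K = 1 ∧ r = 1 ∧ m % 2 = 0 then 1 else 0) := by
  set j0 := m % 2 with hj0
  have hj0' : j0 < 2 := Nat.mod_lt _ (by norm_num)
  have hE : 1 + r ≤ K * (r * (j0 + r + 1)) := by
    calc 1 + r ≤ 1 * (1 * (0 + r + 1)) := by omega
      _ ≤ K * (r * (j0 + r + 1)) := by gcongr; omega
  have hEq : (K * (r * (j0 + r + 1)) = 1 + r) ↔ (K = 1 ∧ r = 1 ∧ j0 = 0) := by
    constructor
    · intro h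
      have h1 : r * (j0 + r + 1) ≤ K * (r * (j0 + r + 1)) := Nat.le_mul_of_pos_left _ hK
      have h2 : r * (r + 1) ≤ r * (j0 + r + 1) := by gcongr; omega
      have h3 : r = 1 := by nlinarith
      subst h3
      have h4 : j0 = 0 := by nlinarith
      rw [h4] at h
      refine ⟨by omega, rfl, h4⟩
    · rintro ⟨rfl, rfl, h⟩
      rw [h]
  unfold Ap
  have hlim : Tendsto (fun N : ℕ => ((N : ℂ)^2 * yy N)^(1 + r) * (yy N)^(K * (r * (j0 + r + 1)) - (1 + r)) *
      ((De N ((j0 + 2 * r : ℕ) : ℤ) / (N : ℂ)^(j0 + 2 * r)) / (De N (j0 : ℤ) / (N : ℂ)^j0))) atTop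
      (𝓝 (if K = 1 ∧ r = 1 ∧ j0 = 0 then 1 else 0)) := by
    have h1 : Tendsto (fun N : ℕ => ((N : ℂ)^2 * yy N)^(1 + r)) atTop (𝓝 1) := by
      have h4 : Tendsto (fun N : ℕ => (N : ℂ)^2 * (yy N - 0)) atTop (𝓝 1) := ap_yy
      have h5 := h4.pow (1 + r)
      simpa using h5
    have h2 : Tendsto (fun N : ℕ => (yy N)^(K * (r * (j0 + r + 1)) - (1 + r))) atTop
        (𝓝 (if K = 1 ∧ r = 1 ∧ j0 = 0 then 1 else 0)) := by
      have h3 := yy_tendsto.pow (K * (r * (j0 + r + 1)) - (1 + r))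
      by_cases hc : K = 1 ∧ r = 1 ∧ j0 = 0
      · have h4 := hEq.2 hc
        rw [if_pos hc]
        have h5 : K * (r * (j0 + r + 1)) - (1 + r) = 0 := by omega
        rw [h5] at h3 ⊢
        simp
      · rw [if_neg hc]
        have h4 : K * (r * (j0 + r + 1)) - (1 + r) ≠ 0 := by
          intro h
          apply hc
          apply hEq.1
          omega
        rw [zero_pow h4] at h3
        exact h3
    have h3 : Tendsto (fun N : ℕ => (De N ((j0 + 2 * r : ℕ) : ℤ) / (N : ℂ)^(j0 + 2 * r)) /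
        (De N (j0 : ℤ) / (N : ℂ)^j0)) atTop (𝓝 1) := by
      have h4 : Tendsto (fun N : ℕ => (De N ((j0 + 2 * r : ℕ) : ℤ) / (N : ℂ)^(j0 + 2 * r)) /
        (De N (j0 : ℤ) / (N : ℂ)^j0)) atTop (𝓝 (1 / 1)) :=
        (De_tendsto (j0 + 2 * r)).div (De_tendsto j0) one_ne_zero
      rwa [div_one] at h4
    have h4 := (h1.mul h2).mul h3
    rw [one_mul, mul_one] at h4
    exact h4
  refine hlim.congr' ?_
  filter_upwards [eventually_ge_atTop 3] with N hN
  have hN0 : (N : ℂ) ≠ 0 := Nat.cast_ne_zero.2 (by omega)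
  have hB := Bb_ne hN
  have hD : De N (j0 : ℤ) ≠ 0 := De_ne hN (Int.natCast_nonneg j0)
  unfold kap
  rw [← hj0, sub_zero]
  have e1 : (Bb N) ^ ((K : ℤ) * (((j0 + 2 * r : ℕ) : ℤ)^2 + 2 * ((j0 + 2 * r : ℕ) : ℤ) - (j0 : ℤ)^2 - 2 * (j0 : ℤ))) =
      (yy N) ^ (K * (r * (j0 + r + 1))) := by
    unfold yy
    rw [← pow_mul, ← zpow_natCast]
    congr 1
    push_cast
    ring
  rw [e1]
  have e2 : (yy N) ^ (K * (r * (j0 + r + 1))) = (yy N) ^ (1 + r) * (yy N) ^ (K * (r * (j0 + r + 1)) - (1 + r)) := by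
    rw [← pow_add]
    congr 1
    omega
  rw [e2, mul_pow, ← pow_mul, pow_add (N : ℂ) j0 (2 * r)]
  have e3 : (N : ℂ) ^ (2 * (1 + r)) = (N : ℂ)^2 * (N : ℂ)^(2 * r) := by rw [← pow_add]; congr 1; ring
  rw [e3]
  field_simp

/-- the trace of the block -/
noncomputable def SS (m : ℕ) (L : List It) (j : ℕ) (N : ℕ) : ℂ :=
  Matrix.trace ((L.map (NM m (j : ℤ) N)).prod)

theorem ap_SS (hF : FFd m) (L : List It) (hL : ∀ x ∈ L, x.Fits m) (j : ℕ) : Ap (SS m L j)
    ((Matrix.trace (P0 L : Matrix (VV m (j : ℤ)) (VV m (j : ℤ)) ℤ) : ℤ) : ℂ)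
    ((Matrix.trace (P1 L : Matrix (VV m (j : ℤ)) (VV m (j : ℤ)) ℤ) : ℤ) : ℂ) :=
  (ap_prod hF L hL).trace

theorem SS_parity (L : List It) (j : ℕ) (hj : j % 2 ≠ m % 2) (N : ℕ) : SS m L j N = 0 := by
  have : IsEmpty (VV m (j : ℤ)) := by
    constructor
    intro s
    obtain ⟨c, hc⟩ := Hh_parity s.1 (Nat.zero_le m)
    rw [s.2.2] at hc
    omega
  unfold SS
  exact Matrix.trace_eq_zero_of_isEmpty _

/-- the sum of the blocks -/
noncomputable def Th (m : ℕ) (L : List It) (K : ℕ) (N : ℕ) : ℂ := ∑ j ∈ range (m+1), kap m K j N * SS m L j N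

/-- the trace of the matrix of order `0` in the block `2`, if it contributes -/
noncomputable def ct (m K : ℕ) (L : List It) : ℤ :=
  if K = 1 ∧ m % 2 = 0 ∧ 2 ≤ m then Matrix.trace (P0 L : Matrix (VV m ((2 : ℕ) : ℤ)) (VV m ((2 : ℕ) : ℤ)) ℤ) else 0

theorem ap_Th (hF : FFd m) (hm : 0 < m) (L : List It) (hL : ∀ x ∈ L, x.Fits m) (K : ℕ) (hK : 1 ≤ K) : Ap (Th m L K)
    ((Matrix.trace (P0 L : Matrix (VV m ((m % 2 : ℕ) : ℤ)) (VV m ((m % 2 : ℕ) : ℤ)) ℤ) : ℤ) : ℂ)
    ((Matrix.trace (P1 L : Matrix (VV m ((m % 2 : ℕ) : ℤ)) (VV m ((m % 2 : ℕ) : ℤ)) ℤ) + ct m K L : ℤ) : ℂ) := by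
  classical
  have hj0' : m % 2 < 2 := Nat.mod_lt _ (by norm_num)
  set a0 : ℂ := ((Matrix.trace (P0 L : Matrix (VV m ((m % 2 : ℕ) : ℤ)) (VV m ((m % 2 : ℕ) : ℤ)) ℤ) : ℤ) : ℂ)
  set b0 : ℂ := ((Matrix.trace (P1 L : Matrix (VV m ((m % 2 : ℕ) : ℤ)) (VV m ((m % 2 : ℕ) : ℤ)) ℤ) : ℤ) : ℂ)
  have hterm : ∀ j ∈ range (m+1), Ap (fun N => kap m K j N * SS m L j N) (if j = m % 2 then a0 else 0)
      ((if j = m % 2 then b0 else 0) + (if j = 2 then ((ct m K L : ℤ) : ℂ) else 0)) := by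
    intro j hj
    rw [Finset.mem_range] at hj
    by_cases hpar : j % 2 = m % 2
    · by_cases hj0 : j = m % 2
      · have hj2 : j ≠ 2 := by omega
        rw [if_pos hj0, if_pos hj0, if_neg hj2, add_zero]
        have h1 : ∀ N, 3 ≤ N → kap m K j N = 1 := by
          intro N hN
          unfold kap
          rw [hj0]
          have hD : De N ((m % 2 : ℕ) : ℤ) ≠ 0 := De_ne hN (Int.natCast_nonneg _)
          rw [div_self hD, one_mul]
          have : (K : ℤ) * (((m % 2 : ℕ) : ℤ)^2 + 2 * ((m % 2 : ℕ) : ℤ) - ((m % 2 : ℕ) : ℤ)^2 -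
            2 * ((m % 2 : ℕ) : ℤ)) = 0 := by ring
          rw [this, zpow_zero]
        have h2 := ap_SS hF L hL j
        rw [hj0] at h2 ⊢
        refine h2.congr fun N hN => ?_
        have h3 := h1 N hN
        rw [hj0] at h3
        rw [h3, one_mul]
      · rw [if_neg hj0, if_neg hj0, zero_add]
        obtain ⟨r, hr⟩ : ∃ r, j = m % 2 + 2 * r := ⟨(j - m % 2) / 2, by omega⟩
        have hr1 : 1 ≤ r := by omega
        have h1 := ap_kap (m := m) K r hK hr1
        rw [← hr] at h1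
        refine (h1.mul (ap_SS hF L hL j)).cast (by simp) ?_
        rw [zero_mul, add_zero]
        by_cases hc : K = 1 ∧ r = 1 ∧ m % 2 = 0
        · have hj2 : j = 2 := by omega
          rw [if_pos hc, if_pos hj2, one_mul]
          unfold ct
          rw [if_pos ⟨hc.1, hc.2.2, by omega⟩]
          subst hj2
          rfl
        · rw [if_neg hc, zero_mul]
          by_cases hj2 : j = 2
          · rw [if_pos hj2]
            unfold ct
            rw [if_neg]
            · simp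
            · rintro ⟨h3, h4, h5⟩
              apply hc
              exact ⟨h3, by omega, h4⟩
          · rw [if_neg hj2]
    · have hj0 : j ≠ m % 2 := by
        intro h
        apply hpar
        omega
      rw [if_neg hj0, if_neg hj0, zero_add]
      refine ((Ap.const 0).cast rfl ?_).congr fun N _ => ?_
      · by_cases hj2 : j = 2
        · rw [if_pos hj2]
          unfold ct
          rw [if_neg]
          · simp
          · rintro ⟨_, h4, _⟩
            omega
        · rw [if_neg hj2]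
      · rw [SS_parity L j hpar N, mul_zero]
  have h := Ap.sum (range (m+1)) hterm
  refine h.cast ?_ ?_
  · rw [Finset.sum_ite_eq' (range (m+1)) (m % 2) (fun _ => a0), if_pos]
    rw [Finset.mem_range]
    omega
  · rw [Finset.sum_add_distrib, Finset.sum_ite_eq' (range (m+1)) (m % 2) (fun _ => b0), if_pos (by
      rw [Finset.mem_range]; omega), Finset.sum_ite_eq' (range (m+1)) 2 (fun _ => ((ct m K L : ℤ) : ℂ))]
    push_cast
    congr 1
    by_cases h2 : 2 ∈ range (m+1)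
    · rw [if_pos h2]
    · rw [if_neg h2]
      rw [Finset.mem_range] at h2
      unfold ct
      rw [if_neg (by omega)]
      simp

theorem ev_formula (hT : TauLam m) (hF : FFd m) (hm : 0 < m) (L : List It) (hL : ∀ x ∈ L, x.Fits m) (K : ℕ)
    (N : ℕ) (hN : 3 ≤ N) :
    (N : ℂ) * evv (draw (braidClosure m) ((wd m L ++ TW true m 0 K).map flipL)).close.bracket N =
      (((L.map sx).prod : ℤ) : ℂ) * (Ar N) ^ ((L.map ex).sum + 3 * K * ((m : ℤ) - (m % 2 : ℕ))) *
        De N ((m % 2 : ℕ) : ℤ) * Th m L K N := by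
  have hA := Ar_ne N hN
  have hB := Bb_ne hN
  have hW : ∀ x ∈ wd m L ++ TW true m 0 K, x.2 + 1 < m := by
    intro y hy
    rcases List.mem_append.1 hy with hy | hy
    · exact wd_mem L hL y hy
    · exact TW_mem true m 0 K (by omega) y hy
  have h1 := ev_bracket_trace hm _ (flip_mem _ hW) N hN
  rw [map_mul, ev_dl, MR_flip, trace_formula hT hF hN hB (Bb_d hN) L hL K] at h1
  rw [evv_eq _ hN, h1]
  unfold Th
  rw [Finset.mul_sum]
  refine Finset.sum_congr rfl fun j _ => ?_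
  rw [sub_wd N hN, Matrix.trace_smul, un_prod hN, smul_eq_mul]
  have hD : De N ((m % 2 : ℕ) : ℤ) ≠ 0 := De_ne hN (Int.natCast_nonneg _)
  have hpow : ∀ k : ℤ, (Bb N) ^ k = (Ar N) ^ (-k) := by
    intro k
    unfold Bb
    rw [inv_zpow']
  have e1 : (Ar N) ^ ((L.map ex).sum + 3 * K * ((m : ℤ) - (m % 2 : ℕ))) * (Bb N) ^ ((K : ℤ) *
      ((j : ℤ)^2 + 2 * j - ((m % 2 : ℕ) : ℤ)^2 - 2 * ((m % 2 : ℕ) : ℤ))) =
      (Ar N) ^ (L.map ex).sum * (Bb N) ^ ((K : ℤ) * ((j : ℤ)^2 + 2 * j - 3 * m)) := by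
    rw [hpow, hpow, ← zpow_add₀ hA, ← zpow_add₀ hA]
    congr 1
    have h3 : ((m % 2 : ℕ) : ℤ)^2 = ((m % 2 : ℕ) : ℤ) := by
      have : m % 2 = 0 ∨ m % 2 = 1 := by omega
      rcases this with h | h <;> rw [h] <;> norm_num
    rw [h3]
    ring
  unfold kap SS
  calc De N j * ((Bb N) ^ ((K : ℤ) * ((j : ℤ)^2 + 2 * j - 3 * m)) * ((((L.map sx).prod : ℤ) : ℂ) *
        (Ar N) ^ (L.map ex).sum * Matrix.trace ((L.map (NM m (j : ℤ) N)).prod)))
      = (((L.map sx).prod : ℤ) : ℂ) * ((Ar N) ^ (L.map ex).sum * (Bb N) ^ ((K : ℤ) * ((j : ℤ)^2 + 2 * j - 3 * m))) *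
          De N j * Matrix.trace ((L.map (NM m (j : ℤ) N)).prod) := by ring
    _ = _ := by
      rw [← e1]
      field_simp

/-- the second coefficient -/
noncomputable def sec (m K : ℕ) (L : List It) : ℤ :=
  Matrix.trace (P1 L : Matrix (VV m ((m % 2 : ℕ) : ℤ)) (VV m ((m % 2 : ℕ) : ℤ)) ℤ) + ct m K L -
    (if m % 2 = 0 then Matrix.trace (P0 L : Matrix (VV m ((m % 2 : ℕ) : ℤ)) (VV m ((m % 2 : ℕ) : ℤ)) ℤ) else 0)

/-- the two extreme coefficients of the bracket -/
theorem bracket_top (hT : TauLam m) (hF : FFd m) (hm : 0 < m) (L : List It) (hL : ∀ x ∈ L, x.Fits m) (K : ℕ)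
    (hK : 1 ≤ K) (E ε : ℤ) (hE : E = (L.map ex).sum + 3 * K * ((m : ℤ) - (m % 2 : ℕ)) - 2 + 2 * (m % 2 : ℕ))
    (hε : ε = (L.map sx).prod * (if m % 2 = 0 then -1 else 1)) (p : ℤ[T;T⁻¹])
    (hp : p = (draw (braidClosure m) ((wd m L ++ TW true m 0 K).map flipL)).close.bracket) :
    p.coeff E = ε * Matrix.trace (P0 L : Matrix (VV m ((m % 2 : ℕ) : ℤ)) (VV m ((m % 2 : ℕ) : ℤ)) ℤ) ∧
    p.coeff (E - 4) = ε * sec m K L ∧ ∀ n, E - 4 < n → n ≠ E → p.coeff n = 0 := by
  apply coeffs_of_Ap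
  have hTh := ap_Th hF hm L hL K hK
  have hform := ev_formula hT hF hm L hL K
  rw [← hp] at hform
  generalize (L.map sx).prod = s0 at hε hform
  set S : ℂ := (s0 : ℂ) with hS
  set X := (L.map ex).sum + 3 * K * ((m : ℤ) - (m % 2 : ℕ)) with hX
  by_cases hpar : m % 2 = 0
  · -- even
    have hinv : Ap (fun N => (1 + yy N)⁻¹) 1 (-1) := by
      unfold Ap
      have h1 : Tendsto (fun N : ℕ => -((N : ℂ)^2 * (yy N - 0)) * (1 + yy N)⁻¹) atTop (𝓝 (-1 * 1)) := by
        refine Tendsto.mul (Tendsto.neg ap_yy) ?_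
        have := (yy_tendsto.const_add 1).inv₀ (by norm_num)
        simpa using this
      rw [mul_one] at h1
      have h2 : ∀ᶠ N in atTop, (1 + yy N) ≠ 0 := by
        have h3 : Tendsto (fun N => 1 + yy N) atTop (𝓝 1) := by simpa using yy_tendsto.const_add 1
        exact h3.eventually_ne one_ne_zero
      refine h1.congr' ?_
      filter_upwards [h2] with N hN
      field_simp
      ring
    have h1 := ((Ap.const (-S)).mul (hTh.mul hinv))
    refine (h1.cast ?_ ?_).congr fun N hN => ?_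
    · rw [hε, if_pos hpar]
      push_cast
      ring
    · rw [hε, if_pos hpar]
      unfold sec
      rw [if_pos hpar]
      push_cast
      ring
    · have hA := Ar_ne N hN
      have hN0 : (N : ℂ) ≠ 0 := Nat.cast_ne_zero.2 (by omega)
      have h2 := hform N hN
      have h3 : De N ((m % 2 : ℕ) : ℤ) = 1 := by rw [hpar]; exact De_zero N
      rw [h3, mul_one] at h2
      have h4 : evv p N = S * (Ar N) ^ X * Th m L K N * (N : ℂ)⁻¹ := by
        rw [← h2]
        field_simp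
      have h5 : (N : ℂ) = -(Ar N)^2 * (1 + yy N) := by
        have h6 := Bb_mul hN
        have h7 : (Ar N)^2 * (Bb N)^2 = 1 := by
          unfold Bb
          rw [← mul_pow, mul_inv_cancel₀ hA, one_pow]
        unfold yy
        rw [← h6]
        linear_combination (-(N : ℂ)) * h7
      have hy : (1 + yy N) ≠ 0 := by
        intro h
        rw [h, mul_zero] at h5
        exact hN0 h5
      rw [h4, h5, hE, hpar]
      have h6 : (Ar N) ^ (-(X - 2 + 2 * ((0 : ℕ) : ℤ))) = (Ar N) ^ (-X) * (Ar N)^2 := by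
        rw [← zpow_natCast, ← zpow_add₀ hA]
        congr 1
        push_cast
        ring
      have h7 : (Ar N) ^ X * (Ar N) ^ (-X) = 1 := by rw [← zpow_add₀ hA]; simp
      rw [h6]
      calc -S * (Th m L K N * (1 + yy N)⁻¹) = -S * (Th m L K N * (1 + yy N)⁻¹) * 1 := by ring
        _ = -S * (Th m L K N * (1 + yy N)⁻¹) * ((Ar N) ^ X * (Ar N) ^ (-X)) := by rw [h7]
        _ = _ := by field_simp
  · have hpar1 : m % 2 = 1 := by omega
    have h1 := ((Ap.const S).mul hTh)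
    refine (h1.cast ?_ ?_).congr fun N hN => ?_
    · rw [hε, if_neg hpar]
      push_cast
      ring
    · rw [hε, if_neg hpar]
      unfold sec
      rw [if_neg hpar]
      push_cast
      ring
    · have hA := Ar_ne N hN
      have hN0 : (N : ℂ) ≠ 0 := Nat.cast_ne_zero.2 (by omega)
      have h2 := hform N hN
      have h3 : De N ((m % 2 : ℕ) : ℤ) = N := by
        rw [hpar1]
        have := De_rec N (le_refl (0 : ℤ))
        rw [De_neg N (by norm_num : (0 : ℤ) - 1 < 0), De_zero, add_zero, mul_one] at this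
        simpa using this
      rw [h3] at h2
      have h4 : evv p N = S * (Ar N) ^ X * Th m L K N := by
        apply mul_left_cancel₀ hN0
        rw [h2]
        ring
      have h7 : (Ar N) ^ X * (Ar N) ^ (-X) = 1 := by rw [← zpow_add₀ hA]; simp
      rw [h4, hE, hpar1]
      have h6 : (-(X - 2 + 2 * ((1 : ℕ) : ℤ))) = -X := by push_cast; ring
      rw [h6]
      calc S * Th m L K N = S * Th m L K N * ((Ar N) ^ X * (Ar N) ^ (-X)) := by rw [h7, mul_one]
        _ = _ := by ring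

end tot

end Pool.Agent.N569.TC
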